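import Pool.Agent.H.MP_e2f694_an.Iso

/-!
# Comparison of the constructed envelope with any other one
-/

open UniformSpace Topology Filter
open scoped TensorProduct NNReal

namespace Pool.Agent.H.MP_e2f694_an

noncomputable section

set_option linter.unusedSectionVars false

lemma Env.hom_ext_apply {A B : Type*} [Ring A] [Algebra ℂ A] [TopologicalSpace B] [T2Space B]
    {f g : Env A → B} (hf : Continuous f) (hg : Continuous g)
    (h : ∀ a, f (toEnv A a) = g (toEnv A a)) (x : Env A) : f x = g x :=
  congrFun (Env.hom_ext hf hg h) x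

section compare

variable {E T : Type*} [AddCommGroup E] [Module ℂ E] [UniformSpace E] [IsUniformAddGroup E]
  [UniformContinuousConstSMul ℂ E]
  [AddCommGroup T] [Module ℂ T] [UniformSpace T] [IsUniformAddGroup T]
  [UniformContinuousConstSMul ℂ T] [CompleteSpace T] [T2Space T]

lemma isUniformInducing_of_nhds (τ : E →ₗ[ℂ] T)
    (h : ∀ U, U ∈ (𝓝 (0 : T)).comap τ ↔ U ∈ 𝓝 (0 : E)) : IsUniformInducing τ :=
  AddMonoidHom.isUniformInducing_of_isInducing (f := τ)
    (IsTopologicalAddGroup.isInducing_iff_nhds_zero.2 (Filter.ext fun U => (h U).symm))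

/-- The continuous linear map underlying `τ`. -/
def tauCLM (τ : E →ₗ[ℂ] T) (h : ∀ U, U ∈ (𝓝 (0 : T)).comap τ ↔ U ∈ 𝓝 (0 : E)) : E →L[ℂ] T where
  toLinearMap := τ
  cont := (isUniformInducing_of_nhds τ h).uniformContinuous.continuous

/-- The comparison isomorphism from the completion of `E` to another completion of `E`. -/
def compareCLE (τ : E →ₗ[ℂ] T) (h : ∀ U, U ∈ (𝓝 (0 : T)).comap τ ↔ U ∈ 𝓝 (0 : E))
    (hd : DenseRange τ) : Completion E ≃L[ℂ] T :=
  let f : Completion E →L[ℂ] T := (tauCLM τ h).fromCompletion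
  let e0 : E →L[ℂ] Completion E :=
    ⟨⟨⟨((↑) : E → Completion E), Completion.coe_add⟩, fun c x => Completion.coe_smul c x⟩,
      Completion.continuous_coe E⟩
  have hui : IsUniformInducing (tauCLM τ h) := isUniformInducing_of_nhds τ h
  have hd' : DenseRange (tauCLM τ h) := hd
  let g : T →L[ℂ] Completion E := ContinuousLinearMap.extend e0 (tauCLM τ h)
  have hg : ∀ x, g (τ x) = x := fun x => ContinuousLinearMap.extend_eq e0 hd' hui x
  have hf : ∀ x : E, f x = τ x := fun x => ContinuousLinearMap.fromCompletion_apply_coe _ x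
  { toFun := f
    invFun := g
    map_add' := map_add f
    map_smul' := map_smul f
    left_inv := fun x => by
      have := Completion.induction_on (p := fun x : Completion E => g (f x) = x) x
        (isClosed_eq (g.continuous.comp f.continuous) continuous_id)
        (fun a => by rw [hf, hg])
      exact this
    right_inv := fun x => by
      have h1 : (fun x => f (g x)) = id := hd.equalizer (f.continuous.comp g.continuous)
        continuous_id (funext fun a => by simp only [Function.comp_apply, hg, hf]; rfl)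
      exact congrFun h1 x
    continuous_toFun := f.continuous
    continuous_invFun := g.continuous }

lemma compareCLE_coe (τ : E →ₗ[ℂ] T) (h : ∀ U, U ∈ (𝓝 (0 : T)).comap τ ↔ U ∈ 𝓝 (0 : E))
    (hd : DenseRange τ) (x : E) : compareCLE τ h hd (x : Completion E) = τ x :=
  ContinuousLinearMap.fromCompletion_apply_coe (tauCLM τ h) x

end compare

/-! ### Neighbourhoods of zero -/

lemma mem_nhds_am_iff {A : Type*} [Ring A] [Algebra ℂ A] (U : Set (AM A)) :
    U ∈ 𝓝 (0 : AM A) ↔ ∃ p : Seminorm ℂ A, Submul p ∧ {a | p a < 1} ⊆ U := by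
  constructor
  · intro hU
    obtain ⟨p, -, hs, hpU⟩ := LMC.exists_ball U hU
    exact ⟨p, hs, hpU⟩
  · rintro ⟨p, hp, hpU⟩
    have hc : Continuous (submulFamily A ⟨p, hp⟩) := (am_withSeminorms A).continuous_seminorm _
    refine mem_of_superset ?_ hpU
    exact (hc.tendsto' 0 0 (map_zero _)).eventually (gt_mem_nhds one_pos)

lemma mem_nhds_proj_iff' {E F : Type*} [AddCommGroup E] [Module ℂ E] [TopologicalSpace E]
    [AddCommGroup F] [Module ℂ F] [TopologicalSpace F] [IsTopologicalAddGroup E]
    [IsTopologicalAddGroup F] (U : Set (ProjTensor E F)) :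
    U ∈ 𝓝 (0 : ProjTensor E F) ↔ ∃ r : Seminorm ℂ (ProjTensor E F),
      (∃ (p : Seminorm ℂ E) (q : Seminorm ℂ F), Continuous p ∧ Continuous q ∧
        ∀ x y, r (ptmul x y) ≤ p x * q y) ∧ {u | r u < 1} ⊆ U := by
  constructor
  · intro hU
    obtain ⟨s, ε, hε, hU⟩ := ((proj_withSeminorms E F).mem_nhds_iff 0 U).1 hU
    choose p q hp hq h using fun r : CrossSeminorm E F => r.2
    have hε' : 0 ≤ ε⁻¹ := inv_nonneg.2 hε.le
    refine ⟨ε⁻¹.toNNReal • (s.sup (crossFamily E F) : Seminorm ℂ (ProjTensor E F)),
      ⟨ε⁻¹.toNNReal • (s.sup p : Seminorm ℂ E), (s.sup q : Seminorm ℂ F),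
        (Seminorm.continuous_finsetSup fun i _ => hp i).const_smul _,
        Seminorm.continuous_finsetSup fun i _ => hq i, ?_⟩, ?_⟩
    · intro x y
      simp only [smul_apply, NNReal.smul_def, smul_eq_mul, Real.coe_toNNReal _ hε']
      rw [mul_assoc]
      refine mul_le_mul_of_nonneg_left ?_ (inv_nonneg.2 hε.le)
      refine Seminorm.finset_sup_apply_le (mul_nonneg (apply_nonneg _ _) (apply_nonneg _ _))
        fun i hi => ?_
      refine (h i x y).trans ?_
      exact mul_le_mul (Seminorm.le_finset_sup_apply hi) (Seminorm.le_finset_sup_apply hi)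
        (apply_nonneg _ _) (apply_nonneg _ _)
    · intro u hu
      refine hU ?_
      have h2 : (ε⁻¹.toNNReal •
        (s.sup (crossFamily E F) : Seminorm ℂ (ProjTensor E F))) u < 1 := hu
      simp only [smul_apply, NNReal.smul_def, smul_eq_mul, Real.coe_toNNReal _ hε'] at h2
      rw [inv_mul_lt_iff₀ hε, mul_one] at h2
      rw [Seminorm.mem_ball, sub_zero]
      exact h2
  · rintro ⟨r, ⟨p, q, hp, hq, h⟩, hrU⟩
    have hc : Continuous (crossFamily E F ⟨r, p, q, hp, hq, h⟩) :=
      (proj_withSeminorms E F).continuous_seminorm _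
    refine mem_of_superset ?_ hrU
    exact (hc.tendsto' 0 0 (map_zero _)).eventually (gt_mem_nhds one_pos)

lemma mem_nhds_proj_iff {E F : Type*} [AddCommGroup E] [Module ℂ E] [TopologicalSpace E]
    [AddCommGroup F] [Module ℂ F] [TopologicalSpace F] [IsTopologicalAddGroup E]
    [IsTopologicalAddGroup F] (U : Set (ProjTensor E F)) :
    U ∈ 𝓝 (0 : ProjTensor E F) ↔ ∃ r : Seminorm ℂ (E ⊗[ℂ] F),
      (∃ (p : Seminorm ℂ E) (q : Seminorm ℂ F), Continuous p ∧ Continuous q ∧
        ∀ x y, r (x ⊗ₜ[ℂ] y) ≤ p x * q y) ∧ {u | r u < 1} ⊆ U :=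
  mem_nhds_proj_iff' U

/-! ### The constructed envelope satisfies the specification -/

lemma isEnvelope_toEnv (A : Type) [Ring A] [Algebra ℂ A] : IsEnvelope (toEnv A) where
  isUniformAddGroup := inferInstance
  isTopologicalRing := inferInstance
  continuousSMul := inferInstance
  completeSpace := inferInstance
  t2Space := inferInstance
  denseRange := denseRange_toEnv A
  mem_comap_nhds_iff U := by
    refine Iff.trans ?_ (mem_nhds_am_iff (A := A) U)
    rw [(Completion.isUniformInducing_coe (AM A)).isInducing.nhds_eq_comap 0, Completion.coe_zero]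
    rfl

/-- The canonical map from `E ⊗ F` to the constructed completed tensor product. -/
def coeTensor (E F : Type) [Ring E] [Algebra ℂ E] [UniformSpace E] [IsUniformAddGroup E] [LMC E]
    [Ring F] [Algebra ℂ F] [UniformSpace F] [IsUniformAddGroup F] [LMC F] :
    E ⊗[ℂ] F →ₗ[ℂ] CTensor E F :=
  (show ProjTensor E F →ₗ[ℂ] CTensor E F from (coeAlg (ProjTensor E F)).toLinearMap)

lemma isProjTensor_coe (E F : Type) [Ring E] [Algebra ℂ E] [UniformSpace E] [IsUniformAddGroup E]
    [LMC E] [Ring F] [Algebra ℂ F] [UniformSpace F] [IsUniformAddGroup F] [LMC F] :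
    IsProjTensor (coeTensor E F) where
  isUniformAddGroup := inferInstance
  continuousSMul := inferInstance
  completeSpace := inferInstance
  t2Space := inferInstance
  denseRange := Completion.denseRange_coe (α := ProjTensor E F)
  mem_comap_nhds_iff U := by
    refine Iff.trans ?_ (mem_nhds_proj_iff (E := E) (F := F) U)
    rw [(Completion.isUniformInducing_coe (ProjTensor E F)).isInducing.nhds_eq_comap 0,
      Completion.coe_zero]
    rfl

section Hopf

/-- An auxiliary form of `HopfEnvelope.Iso`, with bundled maps. -/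
structure HopfEnvelope.IsoData {H₁ H₂ : Type} [Ring H₁] [HopfAlgebra ℂ H₁] [Ring H₂]
    [HopfAlgebra ℂ H₂] (X : HopfEnvelope H₁) (Y : HopfEnvelope H₂) where
  /-- the isomorphism of topological algebras -/
  e : X.B ≃A[ℂ] Y.B
  /-- the map `e ⊗^ e` -/
  e2 : X.T →L[ℂ] Y.T
  e2_τ : ∀ u, e2 (X.τ u) = Y.τ (TensorProduct.map (e : X.B →ₗ[ℂ] Y.B) (e : X.B →ₗ[ℂ] Y.B) u)
  comul_e : ∀ x, Y.comul (e x) = e2 (X.comul x)
  counit_e : ∀ x, Y.counit (e x) = X.counit x
  antipode_e : ∀ x, Y.antipode (e x) = e (X.antipode x)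

/-- From the bundled form to the unbundled one. -/
def HopfEnvelope.IsoData.toIso {H₁ H₂ : Type} [Ring H₁] [HopfAlgebra ℂ H₁] [Ring H₂]
    [HopfAlgebra ℂ H₂] {X : HopfEnvelope H₁} {Y : HopfEnvelope H₂} (g : X.IsoData Y) :
    X.Iso Y where
  f := g.e
  isTopAlgIso := ⟨g.e, fun _ => rfl⟩
  f2 := g.e2
  isLinear_f2 := ⟨map_add g.e2, map_smul g.e2⟩
  continuous_f2 := g.e2.continuous
  f2_tmul x y := by
    rw [HopfEnvelope.tmul, g.e2_τ, TensorProduct.map_tmul]
    rfl
  comul_f := g.comul_e
  counit_f := g.counit_e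
  antipode_f := g.antipode_e

variable (H : Type) [Ring H] [HopfAlgebra ℂ H]

/-- The constructed envelope of a Hopf algebra. -/
def stdEnvelope : HopfEnvelope H where
  B := Env H
  ι := toEnv H
  isEnvelope := isEnvelope_toEnv H
  T := CTensor (Env H) (Env H)
  τ := coeTensor (Env H) (Env H)
  isProjTensor := isProjTensor_coe _ _
  comul := (comulHat H).toContinuousLinearMap
  comul_ι h := comulHat_toEnv h
  counit := (counitHat H).toContinuousLinearMap
  counit_ι h := counitHat_toEnv h
  antipode := antipodeHat H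
  antipode_ι h := antipodeHat_toEnv h

variable {H}
variable (X : HopfEnvelope H)

namespace HopfEnvelope

instance : IsUniformAddGroup X.B := X.isEnvelope.isUniformAddGroup
instance : IsTopologicalRing X.B := X.isEnvelope.isTopologicalRing
instance : ContinuousSMul ℂ X.B := X.isEnvelope.continuousSMul
instance : CompleteSpace X.B := X.isEnvelope.completeSpace
instance : T2Space X.B := X.isEnvelope.t2Space
instance : UniformContinuousConstSMul ℂ X.B :=
  uniformContinuousConstSMul_of_continuousConstSMul _ _
instance : IsUniformAddGroup X.T := X.isProjTensor.isUniformAddGroup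
instance : ContinuousSMul ℂ X.T := X.isProjTensor.continuousSMul
instance : CompleteSpace X.T := X.isProjTensor.completeSpace
instance : T2Space X.T := X.isProjTensor.t2Space
instance : UniformContinuousConstSMul ℂ X.T :=
  uniformContinuousConstSMul_of_continuousConstSMul _ _

/-- The comparison map `Env H ≃ X.B`, as a linear map. -/
def thetaL : Env H ≃L[ℂ] X.B :=
  compareCLE (show AM H →ₗ[ℂ] X.B from X.ι.toLinearMap)
    (fun U => (X.isEnvelope.mem_comap_nhds_iff U).trans (mem_nhds_am_iff U).symm)
    X.isEnvelope.denseRange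

lemma thetaL_toEnv (h : H) : X.thetaL (toEnv H h) = X.ι h := compareCLE_coe _ _ _ _

lemma thetaL_mul (x y : Env H) : X.thetaL (x * y) = X.thetaL x * X.thetaL y := by
  have hc := X.thetaL.continuous
  have key : ∀ a b : H, X.thetaL (toEnv H a * toEnv H b) =
      X.thetaL (toEnv H a) * X.thetaL (toEnv H b) := fun a b => by
    rw [← map_mul (toEnv H), thetaL_toEnv, thetaL_toEnv, thetaL_toEnv, map_mul]
  induction x, y using Completion.induction_on₂ with
  | hp => exact isClosed_eq (by fun_prop) (by fun_prop)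
  | ih a b => exact key a b

/-- The comparison isomorphism `Env H ≃ X.B`. -/
def theta : Env H ≃A[ℂ] X.B where
  toFun := X.thetaL
  invFun := X.thetaL.symm
  left_inv := X.thetaL.left_inv
  right_inv := X.thetaL.right_inv
  map_mul' := X.thetaL_mul
  map_add' := map_add X.thetaL
  commutes' c := by
    have h1 : algebraMap ℂ (Env H) c = toEnv H (algebraMap ℂ H c) := rfl
    change X.thetaL (algebraMap ℂ (Env H) c) = _
    rw [h1, thetaL_toEnv, AlgHom.commutes]
  continuous_toFun := X.thetaL.continuous
  continuous_invFun := X.thetaL.symm.continuous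

lemma theta_toEnv (h : H) : X.theta (toEnv H h) = X.ι h := X.thetaL_toEnv h

lemma theta_symm_ι (h : H) : X.theta.symm (X.ι h) = toEnv H h := by
  rw [← theta_toEnv, ContinuousAlgEquiv.symm_apply_apply]

/-- The comparison map `X.B ⊗^ X.B ≃ X.T`. -/
def kappa : CTensor X.B X.B ≃L[ℂ] X.T :=
  compareCLE (show ProjTensor X.B X.B →ₗ[ℂ] X.T from X.τ)
    (fun U => (X.isProjTensor.mem_comap_nhds_iff U).trans (mem_nhds_proj_iff U).symm)
    X.isProjTensor.denseRange

lemma kappa_coe (u : ProjTensor X.B X.B) : X.kappa (u : CTensor X.B X.B) = X.τ u :=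
  compareCLE_coe _ _ _ _

lemma kappa_symm_τ (u : X.B ⊗[ℂ] X.B) :
    X.kappa.symm (X.τ u) = ((show ProjTensor X.B X.B from u : ProjTensor X.B X.B) :
      CTensor X.B X.B) := by
  rw [ContinuousLinearEquiv.symm_apply_eq]
  exact (X.kappa_coe u).symm

lemma hom_ext_B {C : Type*} [TopologicalSpace C] [T2Space C] {f g : X.B → C} (hf : Continuous f)
    (hg : Continuous g) (h : ∀ a, f (X.ι a) = g (X.ι a)) (x : X.B) : f x = g x :=
  congrFun (X.isEnvelope.denseRange.equalizer hf hg (funext h)) x

lemma map_theta (z : H ⊗[ℂ] H) : TensorProduct.map X.ι.toLinearMap X.ι.toLinearMap z =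
    TensorProduct.map (X.theta : Env H →ₗ[ℂ] X.B) (X.theta : Env H →ₗ[ℂ] X.B)
      (TensorProduct.map (toEnv H).toLinearMap (toEnv H).toLinearMap z) := by
  induction z using TensorProduct.induction_on with
  | zero => simp
  | tmul a b =>
    rw [TensorProduct.map_tmul, TensorProduct.map_tmul, TensorProduct.map_tmul]
    exact congrArg₂ (fun a b => a ⊗ₜ[ℂ] b) (X.theta_toEnv a).symm (X.theta_toEnv b).symm
  | add z w hz hw => rw [map_add, map_add, map_add, hz, hw]

lemma map_theta_symm (z : H ⊗[ℂ] H) :
    TensorProduct.map (toEnv H).toLinearMap (toEnv H).toLinearMap z =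
    TensorProduct.map (X.theta.symm : X.B →ₗ[ℂ] Env H) (X.theta.symm : X.B →ₗ[ℂ] Env H)
      (TensorProduct.map X.ι.toLinearMap X.ι.toLinearMap z) := by
  induction z using TensorProduct.induction_on with
  | zero => simp
  | tmul a b =>
    rw [TensorProduct.map_tmul, TensorProduct.map_tmul, TensorProduct.map_tmul]
    exact congrArg₂ (fun a b => a ⊗ₜ[ℂ] b) (X.theta_symm_ι a).symm (X.theta_symm_ι b).symm
  | add z w hz hw => rw [map_add, map_add, map_add, hz, hw]

/-- The comparison isomorphism from the constructed envelope to `X`. -/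
def fromStd : (stdEnvelope H).IsoData X where
  e := X.theta
  e2 := (X.kappa : CTensor X.B X.B →L[ℂ] X.T).comp
    (cmap (X.theta : Env H →L[ℂ] X.B) (X.theta : Env H →L[ℂ] X.B))
  e2_τ u := by
    have h1 : cmap (X.theta : Env H →L[ℂ] X.B) (X.theta : Env H →L[ℂ] X.B)
        (coeTensor (Env H) (Env H) u) = _ := ContinuousLinearMap.completion_apply_coe _ _
    refine (congrArg X.kappa h1).trans ?_
    exact X.kappa_coe _
  comul_e x := by
    refine Env.hom_ext_apply (f := fun x => X.comul (X.theta x))
      (g := fun x => X.kappa (cmap (X.theta : Env H →L[ℂ] X.B) (X.theta : Env H →L[ℂ] X.B)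
        (comulHat H x)))
      (X.comul.continuous.comp X.theta.continuous)
      (X.kappa.continuous.comp ((cmap _ _).continuous.comp (comulHat H).continuous)) ?_ x
    intro h
    rw [theta_toEnv, X.comul_ι, comulHat_toEnv]
    have h1 : cmap (X.theta : Env H →L[ℂ] X.B) (X.theta : Env H →L[ℂ] X.B)
        (toEnvTensor H (Coalgebra.comul (R := ℂ) h)) = _ :=
      ContinuousLinearMap.completion_apply_coe _ _
    rw [h1, kappa_coe]
    exact congrArg X.τ (X.map_theta _)
  counit_e x := by
    refine Env.hom_ext_apply (f := fun x => X.counit (X.theta x)) (g := fun x => counitHat H x)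
      (X.counit.continuous.comp X.theta.continuous) (counitHat H).continuous ?_ x
    intro h
    rw [theta_toEnv, X.counit_ι, counitHat_toEnv]
  antipode_e x := by
    refine Env.hom_ext_apply (f := fun x => X.antipode (X.theta x))
      (g := fun x => X.theta (antipodeHat H x))
      (X.antipode.continuous.comp X.theta.continuous)
      (X.theta.continuous.comp (antipodeHat H).continuous) ?_ x
    intro h
    rw [theta_toEnv, X.antipode_ι, antipodeHat_toEnv, theta_toEnv]

/-- The comparison isomorphism from `X` to the constructed envelope. -/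
def toStd : X.IsoData (stdEnvelope H) where
  e := X.theta.symm
  e2 := (cmap (X.theta.symm : X.B →L[ℂ] Env H) (X.theta.symm : X.B →L[ℂ] Env H)).comp
    (X.kappa.symm : X.T →L[ℂ] CTensor X.B X.B)
  e2_τ u := by
    refine (congrArg (cmap (X.theta.symm : X.B →L[ℂ] Env H) (X.theta.symm : X.B →L[ℂ] Env H))
      (X.kappa_symm_τ u)).trans ?_
    exact ContinuousLinearMap.completion_apply_coe _ _
  comul_e x := by
    refine X.hom_ext_B (f := fun x => comulHat H (X.theta.symm x))
      (g := fun x => cmap (X.theta.symm : X.B →L[ℂ] Env H) (X.theta.symm : X.B →L[ℂ] Env H)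
        (X.kappa.symm (X.comul x)))
      ((comulHat H).continuous.comp X.theta.symm.continuous)
      ((cmap _ _).continuous.comp (X.kappa.symm.continuous.comp X.comul.continuous)) ?_ x
    intro h
    rw [theta_symm_ι, X.comul_ι, comulHat_toEnv, kappa_symm_τ]
    have h1 := ContinuousLinearMap.completion_apply_coe
      (pmap (X.theta.symm : X.B →L[ℂ] Env H) (X.theta.symm : X.B →L[ℂ] Env H))
      (show ProjTensor X.B X.B from
        TensorProduct.map X.ι.toLinearMap X.ι.toLinearMap (Coalgebra.comul (R := ℂ) h))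
    refine Eq.trans ?_ h1.symm
    exact congrArg (coeTensor (Env H) (Env H)) (X.map_theta_symm _)
  counit_e x := by
    refine X.hom_ext_B (f := fun x => counitHat H (X.theta.symm x)) (g := fun x => X.counit x)
      ((counitHat H).continuous.comp X.theta.symm.continuous) X.counit.continuous ?_ x
    intro h
    rw [theta_symm_ι, X.counit_ι, counitHat_toEnv]
  antipode_e x := by
    refine X.hom_ext_B (f := fun x => antipodeHat H (X.theta.symm x))
      (g := fun x => X.theta.symm (X.antipode x))
      ((antipodeHat H).continuous.comp X.theta.symm.continuous)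
      (X.theta.symm.continuous.comp X.antipode.continuous) ?_ x
    intro h
    rw [theta_symm_ι, X.antipode_ι, antipodeHat_toEnv, theta_symm_ι]

/-- Composition of isomorphisms. -/
def IsoData.trans {H₁ H₂ H₃ : Type} [Ring H₁] [HopfAlgebra ℂ H₁] [Ring H₂] [HopfAlgebra ℂ H₂]
    [Ring H₃] [HopfAlgebra ℂ H₃] {X : HopfEnvelope H₁} {Y : HopfEnvelope H₂} {Z : HopfEnvelope H₃}
    (f : X.IsoData Y) (g : Y.IsoData Z) : X.IsoData Z where
  e := f.e.trans g.e
  e2 := g.e2.comp f.e2
  e2_τ u := by
    rw [ContinuousLinearMap.comp_apply, f.e2_τ, g.e2_τ]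
    congr 1
    induction u using TensorProduct.induction_on with
    | zero => simp
    | tmul a b => simp only [TensorProduct.map_tmul]; rfl
    | add z w hz hw => rw [map_add, map_add, map_add, hz, hw]
  comul_e x := by
    rw [ContinuousAlgEquiv.trans_apply, g.comul_e, f.comul_e, ContinuousLinearMap.comp_apply]
  counit_e x := by
    rw [ContinuousAlgEquiv.trans_apply, g.counit_e, f.counit_e]
  antipode_e x := by
    rw [ContinuousAlgEquiv.trans_apply, g.antipode_e, f.antipode_e, ContinuousAlgEquiv.trans_apply]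

end HopfEnvelope

/-- An isomorphism of the constructed envelopes. -/
def EnvIso.toIsoData {H₁ H₂ : Type} [Ring H₁] [HopfAlgebra ℂ H₁] [Ring H₂] [HopfAlgebra ℂ H₂]
    (f : EnvIso H₁ H₂) : (stdEnvelope H₁).IsoData (stdEnvelope H₂) where
  e := f.equiv
  e2 := cmap (f.equiv : Env H₁ →L[ℂ] Env H₂) (f.equiv : Env H₁ →L[ℂ] Env H₂)
  e2_τ _ := ContinuousLinearMap.completion_apply_coe _ _
  comul_e x := f.comul_comm x
  counit_e x := f.counit_comm x
  antipode_e x := f.antipode_comm x

end Hopf

end

end Pool.Agent.H.MP_e2f694_an
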