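import Pool.Agent.H.MP_e2f694_an.Spec

/-!
# Arens-Michael envelopes of Hopf algebras: the construction
-/

open UniformSpace Topology Filter
open scoped TensorProduct NNReal

namespace Pool.Agent.H.MP_e2f694_an

noncomputable section

/-! ### Topologies defined by seminorms -/

section Seminorms

variable {E ι : Type*} [AddCommGroup E] [Module ℂ E]

/-- The uniform structure on a complex vector space defined by a family of seminorms. -/
@[reducible] def seminormUniformity (p : SeminormFamily ℂ E ι) : UniformSpace E :=
  ⨅ i, (p i).toSeminormedAddCommGroup.toUniformSpace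

lemma isUniformAddGroup_seminormUniformity
    (p : SeminormFamily ℂ E ι) : @IsUniformAddGroup E (seminormUniformity p) _ :=
  isUniformAddGroup_iInf fun i => by
    let _ := (p i).toSeminormedAddCommGroup
    infer_instance

lemma withSeminorms_seminormUniformity (p : SeminormFamily ℂ E ι) :
    @WithSeminorms ℂ E ι _ _ _ p (seminormUniformity p).toTopologicalSpace := by
  let _ := seminormUniformity p
  have _ := isUniformAddGroup_seminormUniformity p
  exact (SeminormFamily.withSeminorms_iff_uniformSpace_eq_iInf p).2 rfl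

end Seminorms

/-- Locally multiplicatively convex: the open unit balls of the continuous submultiplicative
seminorms form a basis of neighbourhoods of zero. -/
class LMC (B : Type*) [Ring B] [Algebra ℂ B] [TopologicalSpace B] : Prop where
  exists_ball : ∀ U ∈ 𝓝 (0 : B), ∃ p : Seminorm ℂ B, Continuous p ∧ Submul p ∧ {x | p x < 1} ⊆ U

section bilinear

variable {E F G ι : Type*} [AddCommGroup E] [Module ℂ E] [TopologicalSpace E]
  [IsTopologicalAddGroup E]
  [AddCommGroup F] [Module ℂ F] [TopologicalSpace F] [IsTopologicalAddGroup F]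
  [AddCommGroup G] [Module ℂ G] [TopologicalSpace G]

lemma continuous_bilin (f : E →ₗ[ℂ] F →ₗ[ℂ] G) {r : SeminormFamily ℂ G ι} (hr : WithSeminorms r)
    (h : ∀ i, ∃ (p : Seminorm ℂ E) (q : Seminorm ℂ F), Continuous p ∧ Continuous q ∧
      ∀ x y, r i (f x y) ≤ p x * q y) : Continuous fun z : E × F => f z.1 z.2 := by
  rw [continuous_iff_continuousAt]
  rintro ⟨x₀, y₀⟩
  refine (hr.tendsto_nhds _ _).2 fun i ε hε => ?_
  obtain ⟨p, q, hp, hq, hpq⟩ := h i
  have hc : Continuous fun z : E × F => p (z.1 - x₀) * q z.2 + p x₀ * q (z.2 - y₀) := by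
    fun_prop
  have hev : ∀ᶠ z in 𝓝 (x₀, y₀), p (z.1 - x₀) * q z.2 + p x₀ * q (z.2 - y₀) < ε := by
    have := hc.tendsto' (x₀, y₀) 0 (by simp)
    exact this.eventually (gt_mem_nhds hε)
  filter_upwards [hev] with z hz
  refine lt_of_le_of_lt ?_ hz
  have : f z.1 z.2 - f x₀ y₀ = f (z.1 - x₀) z.2 + f x₀ (z.2 - y₀) := by
    simp
  calc r i (f z.1 z.2 - f x₀ y₀) = r i (f (z.1 - x₀) z.2 + f x₀ (z.2 - y₀)) := by rw [this]
    _ ≤ r i (f (z.1 - x₀) z.2) + r i (f x₀ (z.2 - y₀)) := map_add_le_add _ _ _
    _ ≤ _ := add_le_add (hpq _ _) (hpq _ _)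

end bilinear

section LMC

variable {B : Type*} [Ring B] [Algebra ℂ B]

lemma Submul.smul {p : Seminorm ℂ B} (hp : Submul p) {c : ℝ≥0} (hc : 1 ≤ c) :
    Submul (c • p) := by
  intro a b
  have hc' : (1 : ℝ) ≤ c := by exact_mod_cast hc
  simp only [smul_apply, NNReal.smul_def, smul_eq_mul]
  have h1 := hp a b
  have h2 : 0 ≤ p a * p b := mul_nonneg (apply_nonneg _ _) (apply_nonneg _ _)
  nlinarith [mul_nonneg (mul_nonneg c.coe_nonneg (sub_nonneg.2 hc')) h2,
    mul_le_mul_of_nonneg_left h1 c.coe_nonneg]

lemma Submul.finset_sup {ι : Type*} {p : SeminormFamily ℂ B ι} {s : Finset ι}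
    (hs : ∀ i ∈ s, Submul (p i)) : Submul (s.sup p) := by
  intro a b
  rcases s.eq_empty_or_nonempty with rfl | hne
  · simp [Seminorm.bot_eq_zero]
  · obtain ⟨i, hi, h⟩ := Seminorm.exists_apply_eq_finset_sup p hne (a * b)
    rw [h]
    refine (hs i hi a b).trans ?_
    exact mul_le_mul (Seminorm.le_finset_sup_apply hi) (Seminorm.le_finset_sup_apply hi)
      (apply_nonneg _ _) (apply_nonneg _ _)

variable [TopologicalSpace B]

lemma LMC.withSeminorms [IsTopologicalAddGroup B] [LMC B] :
    WithSeminorms (fun p : {p : Seminorm ℂ B // Continuous p ∧ Submul p} => p.1) := by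
  rw [SeminormFamily.withSeminorms_iff_nhds_eq_iInf]
  refine le_antisymm (le_iInf fun p => ?_) fun U hU => ?_
  · rw [← tendsto_iff_comap]
    exact p.2.1.tendsto' 0 0 (map_zero _)
  · obtain ⟨p, hp, hs, hpU⟩ := LMC.exists_ball U hU
    refine mem_iInf_of_mem ⟨p, hp, hs⟩ ?_
    refine ⟨Set.Iio 1, gt_mem_nhds one_pos, hpU⟩

lemma LMC.exists_le [LMC B] (q : Seminorm ℂ B) (hq : Continuous q) :
    ∃ p : Seminorm ℂ B, Continuous p ∧ Submul p ∧ ∀ x, q x ≤ p x := by
  obtain ⟨p, hp, hs, hpU⟩ := LMC.exists_ball {x | q x < 1}
    ((hq.tendsto' 0 0 (map_zero _)).eventually (gt_mem_nhds one_pos))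
  refine ⟨p, hp, hs, fun x => ?_⟩
  by_contra! hlt
  have hq0 : 0 < q x := lt_of_le_of_lt (apply_nonneg _ _) hlt
  have h1 : p ((q x : ℂ)⁻¹ • x) < 1 := by
    rw [map_smul_eq_mul, norm_inv, Complex.norm_real, Real.norm_of_nonneg hq0.le,
      inv_mul_lt_iff₀ hq0, mul_one]
    exact hlt
  have h2 : q ((q x : ℂ)⁻¹ • x) < 1 := hpU h1
  rw [map_smul_eq_mul, norm_inv, Complex.norm_real, Real.norm_of_nonneg hq0.le,
      inv_mul_cancel₀ hq0.ne'] at h2
  exact lt_irrefl _ h2

lemma LMC.of_withSeminorms {ι : Type*} {p : SeminormFamily ℂ B ι} (hp : WithSeminorms p)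
    (hs : ∀ i, Submul (p i)) : LMC B := by
  refine ⟨fun U hU => ?_⟩
  have _ := hp.topologicalAddGroup
  have _ := hp.continuousSMul
  obtain ⟨s, r, hr, hU⟩ := (hp.mem_nhds_iff 0 U).1 hU
  have hcont : Continuous (s.sup p : Seminorm ℂ B) :=
    Seminorm.continuous_finsetSup fun i _ => hp.continuous_seminorm i
  have hr' : 0 ≤ r⁻¹ := by positivity
  set c : ℝ≥0 := max 1 ⟨r⁻¹, hr'⟩ with hcdef
  refine ⟨c • (s.sup p : Seminorm ℂ B), hcont.const_smul c,
    (Submul.finset_sup fun i _ => hs i).smul (le_max_left _ _), fun x hx => hU ?_⟩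
  rw [Seminorm.mem_ball, sub_zero]
  simp only [Set.mem_ofPred_eq, smul_apply, NNReal.smul_def, smul_eq_mul] at hx
  have hc1 : r⁻¹ ≤ (c : ℝ) := by
    have : (⟨r⁻¹, hr'⟩ : ℝ≥0) ≤ c := le_max_right _ _
    exact_mod_cast this
  have h3 : r⁻¹ * (s.sup p) x < 1 :=
    lt_of_le_of_lt (mul_le_mul_of_nonneg_right hc1 (apply_nonneg _ _)) hx
  rwa [inv_mul_lt_iff₀ hr, mul_one] at h3

lemma LMC.continuousMul [IsTopologicalAddGroup B] [LMC B] : ContinuousMul B where
  continuous_mul := continuous_bilin (LinearMap.mul ℂ B) LMC.withSeminorms fun p =>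
    ⟨p.1, p.1, p.2.1, p.2.1, fun x y => p.2.2 x y⟩

lemma LMC.isTopologicalRing [IsTopologicalAddGroup B] [LMC B] : IsTopologicalRing B where
  __ := LMC.continuousMul (B := B)
  __ := (inferInstance : ContinuousAdd B)
  __ := (inferInstance : ContinuousNeg B)

end LMC

/-! ### The extension of a continuous seminorm to the completion -/

section CompletionSeminorm

variable {E : Type*} [AddCommGroup E] [Module ℂ E] [UniformSpace E] [IsUniformAddGroup E]
  [UniformContinuousConstSMul ℂ E]

/-- The continuous extension of a continuous seminorm to the completion. -/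
def compSeminorm (p : Seminorm ℂ E) (hp : Continuous p) : Seminorm ℂ (Completion E) :=
  have hu : UniformContinuous p :=
    Seminorm.uniformContinuous_of_continuousAt_zero hp.continuousAt
  have hc : Continuous (Completion.extension p) := Completion.continuous_extension
  Seminorm.of (Completion.extension p)
    (fun x y => by
      induction x, y using Completion.induction_on₂ with
      | hp => exact isClosed_le (by fun_prop) (by fun_prop)
      | ih a b =>
        rw [← Completion.coe_add, Completion.extension_coe hu, Completion.extension_coe hu,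
          Completion.extension_coe hu]
        exact map_add_le_add _ _ _)
    (fun c x => by
      induction x using Completion.induction_on with
      | hp =>
        exact isClosed_eq (hc.comp (continuous_const_smul c)) (by fun_prop)
      | ih a =>
        rw [← Completion.coe_smul, Completion.extension_coe hu, Completion.extension_coe hu,
          map_smul_eq_mul])

lemma compSeminorm_coe (p : Seminorm ℂ E) (hp : Continuous p) (x : E) :
    compSeminorm p hp (x : Completion E) = p x :=
  Completion.extension_coe (Seminorm.uniformContinuous_of_continuousAt_zero hp.continuousAt) x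

lemma continuous_compSeminorm (p : Seminorm ℂ E) (hp : Continuous p) :
    Continuous (compSeminorm p hp) :=
  Completion.continuous_extension

end CompletionSeminorm

section CompletionLMC

variable {B : Type*} [Ring B] [Algebra ℂ B] [UniformSpace B] [IsUniformAddGroup B]
  [IsTopologicalRing B] [UniformContinuousConstSMul ℂ B]

lemma Submul.compSeminorm {p : Seminorm ℂ B} (hs : Submul p) (hp : Continuous p) :
    Submul (compSeminorm p hp) := by
  intro x y
  induction x, y using Completion.induction_on₂ with
  | hp =>
    have := continuous_compSeminorm p hp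
    exact isClosed_le (by fun_prop) (by fun_prop)
  | ih a b =>
    rw [← Completion.coe_mul, compSeminorm_coe, compSeminorm_coe, compSeminorm_coe]
    exact hs a b

instance [LMC B] : LMC (Completion B) where
  exists_ball U hU := by
    obtain ⟨V, hV, hVc, hVU⟩ := exists_mem_nhds_isClosed_subset hU
    have hV' : (fun x : B => (x : Completion B)) ⁻¹' V ∈ 𝓝 (0 : B) :=
      (Completion.continuous_coe B).continuousAt.preimage_mem_nhds
        (by rw [Completion.coe_zero]; exact hV)
    obtain ⟨p, hp, hs, hpV⟩ := LMC.exists_ball _ hV'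
    refine ⟨compSeminorm p hp, continuous_compSeminorm p hp, hs.compSeminorm hp, ?_⟩
    refine Set.Subset.trans ?_ hVU
    intro x hx
    have hopen : IsOpen {x | compSeminorm p hp x < 1} :=
      isOpen_lt (continuous_compSeminorm p hp) continuous_const
    have h1 : x ∈ closure ({x | compSeminorm p hp x < 1} ∩ Set.range ((↑) : B → Completion B)) :=
      (Completion.denseRange_coe (α := B)).open_subset_closure_inter hopen hx
    refine closure_minimal ?_ hVc h1
    rintro _ ⟨hy, ⟨y, rfl⟩⟩
    refine hpV ?_
    simpa [compSeminorm_coe] using hy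

end CompletionLMC

/-! ### The Arens-Michael envelope -/

section AM

variable (A : Type*) [Ring A] [Algebra ℂ A]

/-- The submultiplicative seminorms on a complex algebra. -/
def SubmulSeminorm : Type _ := {p : Seminorm ℂ A // Submul p}

/-- A copy of the algebra `A`, to be given the locally convex topology defined by all
submultiplicative seminorms on `A`. -/
def AM (A : Type*) : Type _ := A

instance : Ring (AM A) := inferInstanceAs (Ring A)
instance : Algebra ℂ (AM A) := inferInstanceAs (Algebra ℂ A)

/-- The family of all submultiplicative seminorms, on `AM A`. -/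
def submulFamily : SeminormFamily ℂ (AM A) (SubmulSeminorm A) := fun p => p.1

instance : UniformSpace (AM A) := seminormUniformity (submulFamily A)
instance : IsUniformAddGroup (AM A) := isUniformAddGroup_seminormUniformity _

lemma am_withSeminorms : WithSeminorms (submulFamily A) :=
  withSeminorms_seminormUniformity _

instance : ContinuousSMul ℂ (AM A) := (am_withSeminorms A).continuousSMul
instance : UniformContinuousConstSMul ℂ (AM A) :=
  uniformContinuousConstSMul_of_continuousConstSMul _ _
instance : LMC (AM A) := LMC.of_withSeminorms (am_withSeminorms A) fun p => p.2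
instance : IsTopologicalRing (AM A) := LMC.isTopologicalRing

/-- The Arens-Michael envelope of a complex algebra `A`: the (Hausdorff) completion of `A` with
respect to the family of all submultiplicative seminorms on `A`. -/
abbrev Env : Type _ := Completion (AM A)

/-- The canonical homomorphism `A → Env A`. -/
def toEnv : A →ₐ[ℂ] Env A where
  toFun a := ((show AM A from a : AM A) : Completion (AM A))
  map_one' := Completion.coe_one _
  map_mul' a b := Completion.coe_mul (α := AM A) a b
  map_zero' := Completion.coe_zero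
  map_add' a b := Completion.coe_add (α := AM A) a b
  commutes' _ := rfl

end AM

/-! ### The completed projective tensor product -/

section Proj

variable (E F : Type*) [AddCommGroup E] [Module ℂ E] [AddCommGroup F] [Module ℂ F]

/-- A copy of the algebraic tensor product `E ⊗ F`, to be given the projective topology. -/
def ProjTensor : Type _ := E ⊗[ℂ] F

instance : AddCommGroup (ProjTensor E F) := inferInstanceAs (AddCommGroup (E ⊗[ℂ] F))
instance : Module ℂ (ProjTensor E F) := inferInstanceAs (Module ℂ (E ⊗[ℂ] F))

variable {E F} in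
/-- The elementary tensor `x ⊗ y`, in `ProjTensor E F`. -/
def ptmul (x : E) (y : F) : ProjTensor E F := x ⊗ₜ[ℂ] y

variable [TopologicalSpace E] [TopologicalSpace F]

/-- The seminorms `r` on `E ⊗ F` such that `r (x ⊗ y) ≤ p x * q y` for some continuous seminorms
`p` on `E` and `q` on `F`. They define the projective topology. -/
def CrossSeminorm : Type _ := {r : Seminorm ℂ (ProjTensor E F) //
  ∃ (p : Seminorm ℂ E) (q : Seminorm ℂ F), Continuous p ∧ Continuous q ∧
    ∀ x y, r (ptmul x y) ≤ p x * q y}

/-- The seminorms defining the projective topology. -/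
def crossFamily : SeminormFamily ℂ (ProjTensor E F) (CrossSeminorm E F) := fun r => r.1

instance : UniformSpace (ProjTensor E F) := seminormUniformity (crossFamily E F)
instance : IsUniformAddGroup (ProjTensor E F) := isUniformAddGroup_seminormUniformity _

lemma proj_withSeminorms : WithSeminorms (crossFamily E F) :=
  withSeminorms_seminormUniformity _

instance : ContinuousSMul ℂ (ProjTensor E F) := (proj_withSeminorms E F).continuousSMul
instance : UniformContinuousConstSMul ℂ (ProjTensor E F) :=
  uniformContinuousConstSMul_of_continuousConstSMul _ _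

/-- The completed projective tensor product `E ⊗^ F`. -/
abbrev CTensor : Type _ := Completion (ProjTensor E F)

variable {E F}

/-- The element `x ⊗ y` of the completed projective tensor product. -/
def ctmul (x : E) (y : F) : CTensor E F := (ptmul x y : CTensor E F)

lemma continuous_of_cross (r : Seminorm ℂ (ProjTensor E F)) (p : Seminorm ℂ E) (q : Seminorm ℂ F)
    (hp : Continuous p) (hq : Continuous q) (h : ∀ x y, r (ptmul x y) ≤ p x * q y) :
    Continuous r :=
  (proj_withSeminorms E F).continuous_seminorm ⟨r, p, q, hp, hq, h⟩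

variable {E' F' : Type*} [AddCommGroup E'] [Module ℂ E'] [AddCommGroup F'] [Module ℂ F']
  [TopologicalSpace E'] [TopologicalSpace F']

/-- The map `f ⊗ g` on algebraic tensor products, as a continuous map for the projective
topologies. -/
def pmap (f : E →L[ℂ] E') (g : F →L[ℂ] F') : ProjTensor E F →L[ℂ] ProjTensor E' F' where
  toLinearMap := TensorProduct.map (f : E →ₗ[ℂ] E') (g : F →ₗ[ℂ] F')
  cont := by
    refine (proj_withSeminorms E' F').continuous_of_continuous_comp _ ?_
    rintro ⟨r, p, q, hp, hq, h⟩
    refine continuous_of_cross _ (p.comp (f : E →ₗ[ℂ] E')) (q.comp (g : F →ₗ[ℂ] F'))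
      (hp.comp f.continuous) (hq.comp g.continuous) fun x y => h (f x) (g y)

/-- The map `f ⊗^ g` on completed projective tensor products: the continuous linear extension
of `f ⊗ g`. -/
def cmap (f : E →L[ℂ] E') (g : F →L[ℂ] F') : CTensor E F →L[ℂ] CTensor E' F' :=
  (pmap f g).completion

lemma cmap_ctmul (f : E →L[ℂ] E') (g : F →L[ℂ] F') (x : E) (y : F) :
    cmap f g (ctmul x y) = ctmul (f x) (g y) :=
  ContinuousLinearMap.completion_apply_coe _ _

end Proj

/-! ### The cross seminorm of two seminorms -/

section Cross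

variable {E F : Type*} [AddCommGroup E] [Module ℂ E] [AddCommGroup F] [Module ℂ F]

lemma ProjTensor.induction {P : ProjTensor E F → Prop} (u : ProjTensor E F) (h0 : P 0)
    (ht : ∀ x y, P (ptmul x y)) (ha : ∀ u v, P u → P v → P (u + v)) : P u :=
  TensorProduct.induction_on u h0 ht ha

/-- The seminorms on `E ⊗ F` bounded by `p x * q y` on elementary tensors. -/
def crossSet (p : Seminorm ℂ E) (q : Seminorm ℂ F) : Set (Seminorm ℂ (ProjTensor E F)) :=
  {r | ∀ x y, r (ptmul x y) ≤ p x * q y}

lemma bddAbove_crossSet (p : Seminorm ℂ E) (q : Seminorm ℂ F) :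
    BddAbove (crossSet p q) := by
  rw [Seminorm.bddAbove_iff]
  refine (bddAbove_pi).2 fun u => ?_
  have key : ∃ C, ∀ r ∈ crossSet p q, r u ≤ C := by
    induction u using ProjTensor.induction with
    | h0 => exact ⟨0, fun r _ => (map_zero r).le⟩
    | ht x y => exact ⟨p x * q y, fun r hr => hr x y⟩
    | ha u v hu hv =>
      obtain ⟨C, hC⟩ := hu
      obtain ⟨D, hD⟩ := hv
      exact ⟨C + D, fun r hr => (map_add_le_add r u v).trans (add_le_add (hC r hr) (hD r hr))⟩
  obtain ⟨C, hC⟩ := key
  refine ⟨C, ?_⟩
  rintro _ ⟨_, ⟨r, hr, rfl⟩, rfl⟩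
  exact hC r hr

/-- The projective tensor product of two seminorms, defined as the largest seminorm that is at most
`p x * q y` on elementary tensors. -/
def crossSem (p : Seminorm ℂ E) (q : Seminorm ℂ F) : Seminorm ℂ (ProjTensor E F) :=
  sSup (crossSet p q)

lemma le_crossSem {p : Seminorm ℂ E} {q : Seminorm ℂ F} {r : Seminorm ℂ (ProjTensor E F)}
    (hr : ∀ x y, r (ptmul x y) ≤ p x * q y) (u : ProjTensor E F) : r u ≤ crossSem p q u :=
  (le_csSup (bddAbove_crossSet p q) (show r ∈ crossSet p q from hr) : r ≤ crossSem p q) u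

lemma crossSem_ptmul_le (p : Seminorm ℂ E) (q : Seminorm ℂ F) (x : E) (y : F) :
    crossSem p q (ptmul x y) ≤ p x * q y := by
  have hne : (crossSet p q).Nonempty := ⟨0, fun x y => by
    simpa using mul_nonneg (apply_nonneg p x) (apply_nonneg q y)⟩
  have := hne.to_subtype
  rw [crossSem, Seminorm.sSup_apply (bddAbove_crossSet p q)]
  exact ciSup_le fun r => r.2 x y

lemma le_mul_crossSem {p : Seminorm ℂ E} {q : Seminorm ℂ F} {r : Seminorm ℂ (ProjTensor E F)}
    {C : ℝ} (hC : 0 ≤ C) (hr : ∀ x y, r (ptmul x y) ≤ C * (p x * q y)) (u : ProjTensor E F) :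
    r u ≤ C * crossSem p q u := by
  rcases hC.eq_or_lt with rfl | hC
  · rw [zero_mul]
    induction u using ProjTensor.induction with
    | h0 => simp
    | ht x y => simpa using hr x y
    | ha u v hu hv => exact (map_add_le_add r u v).trans (by linarith)
  · have hC' : 0 ≤ C⁻¹ := inv_nonneg.2 hC.le
    have h1 : ∀ x y, (C⁻¹.toNNReal • r) (ptmul x y) ≤ p x * q y := by
      intro x y
      simp only [smul_apply, NNReal.smul_def, smul_eq_mul, Real.coe_toNNReal _ hC']
      rw [inv_mul_le_iff₀ hC]
      exact hr x y
    have h2 := le_crossSem h1 u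
    simp only [smul_apply, NNReal.smul_def, smul_eq_mul, Real.coe_toNNReal _ hC'] at h2
    rwa [inv_mul_le_iff₀ hC] at h2

lemma continuous_crossSem [TopologicalSpace E] [TopologicalSpace F]
    {p : Seminorm ℂ E} {q : Seminorm ℂ F} (hp : Continuous p) (hq : Continuous q) :
    Continuous (crossSem p q) :=
  continuous_of_cross _ p q hp hq (crossSem_ptmul_le p q)

end Cross

section CrossAlgebra

variable {A B : Type*} [Ring A] [Algebra ℂ A] [Ring B] [Algebra ℂ B]

instance : Ring (ProjTensor A B) := inferInstanceAs (Ring (A ⊗[ℂ] B))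
instance : Algebra ℂ (ProjTensor A B) := inferInstanceAs (Algebra ℂ (A ⊗[ℂ] B))

lemma ptmul_mul_ptmul (a a' : A) (b b' : B) :
    ptmul a b * ptmul a' b' = ptmul (a * a') (b * b') :=
  Algebra.TensorProduct.tmul_mul_tmul a a' b b'

lemma submul_crossSem {p : Seminorm ℂ A} {q : Seminorm ℂ B} (hp : Submul p) (hq : Submul q) :
    Submul (crossSem p q) := by
  have step1 : ∀ (u : ProjTensor A B) (c : A) (d : B),
      crossSem p q (u * ptmul c d) ≤ (p c * q d) * crossSem p q u := by
    intro u c d
    refine le_mul_crossSem (r := (crossSem p q).comp (LinearMap.mulRight ℂ (ptmul c d)))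
      (mul_nonneg (apply_nonneg _ _) (apply_nonneg _ _)) (fun x y => ?_) u
    calc crossSem p q (ptmul x y * ptmul c d) = crossSem p q (ptmul (x * c) (y * d)) := by
          rw [ptmul_mul_ptmul]
      _ ≤ p (x * c) * q (y * d) := crossSem_ptmul_le _ _ _ _
      _ ≤ (p x * p c) * (q y * q d) := mul_le_mul (hp _ _) (hq _ _) (apply_nonneg _ _)
          (mul_nonneg (apply_nonneg _ _) (apply_nonneg _ _))
      _ = _ := by ring
  intro u v
  refine le_mul_crossSem (r := (crossSem p q).comp (LinearMap.mulLeft ℂ u))
    (apply_nonneg _ _) (fun c d => ?_) v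
  rw [mul_comm]
  exact step1 u c d

instance [TopologicalSpace A] [TopologicalSpace B] [IsTopologicalAddGroup A]
    [IsTopologicalAddGroup B] [LMC A] [LMC B] : LMC (ProjTensor A B) where
  exists_ball U hU := by
    obtain ⟨s, ε, hε, hU⟩ := ((proj_withSeminorms A B).mem_nhds_iff 0 U).1 hU
    choose p q hp hq h using fun r : CrossSeminorm A B => r.2
    have hε' : 0 ≤ ε⁻¹ := inv_nonneg.2 hε.le
    obtain ⟨P, hPc, hPs, hP⟩ := LMC.exists_le
      (ε⁻¹.toNNReal • (s.sup p : Seminorm ℂ A))
      ((Seminorm.continuous_finsetSup fun i _ => hp i).const_smul _)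
    obtain ⟨Q, hQc, hQs, hQ⟩ := LMC.exists_le (s.sup q : Seminorm ℂ B)
      (Seminorm.continuous_finsetSup fun i _ => hq i)
    refine ⟨crossSem P Q, continuous_crossSem hPc hQc, submul_crossSem hPs hQs,
      fun u hu => hU ?_⟩
    have h1 : ∀ x y, (ε⁻¹.toNNReal •
        (s.sup (crossFamily A B) : Seminorm ℂ (ProjTensor A B))) (ptmul x y) ≤ P x * Q y := by
      intro x y
      have hx := hP x
      have hy := hQ y
      simp only [smul_apply, NNReal.smul_def, smul_eq_mul, Real.coe_toNNReal _ hε'] at hx ⊢
      refine le_trans ?_ (mul_le_mul hx hy (apply_nonneg _ _) (apply_nonneg _ _))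
      rw [mul_assoc]
      refine mul_le_mul_of_nonneg_left ?_ (inv_nonneg.2 hε.le)
      refine Seminorm.finset_sup_apply_le (mul_nonneg (apply_nonneg _ _) (apply_nonneg _ _))
        fun i hi => ?_
      refine (h i x y).trans ?_
      exact mul_le_mul (Seminorm.le_finset_sup_apply hi) (Seminorm.le_finset_sup_apply hi)
        (apply_nonneg _ _) (apply_nonneg _ _)
    have h2 := (le_crossSem h1 u).trans_lt hu
    simp only [smul_apply, NNReal.smul_def, smul_eq_mul, Real.coe_toNNReal _ hε'] at h2
    rw [inv_mul_lt_iff₀ hε, mul_one] at h2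
    rw [Seminorm.mem_ball, sub_zero]
    exact h2

instance [TopologicalSpace A] [TopologicalSpace B] [IsTopologicalAddGroup A]
    [IsTopologicalAddGroup B] [LMC A] [LMC B] : IsTopologicalRing (ProjTensor A B) :=
  LMC.isTopologicalRing

end CrossAlgebra

/-! ### The universal property of the envelope -/

section Universal

variable {A B : Type*} [Ring A] [Algebra ℂ A] [Ring B] [Algebra ℂ B]

section

variable [TopologicalSpace B] [IsTopologicalAddGroup B] [LMC B]

/-- Every homomorphism from `A` to a locally multiplicatively convex algebra is continuous on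
`AM A`. -/
def amHom (f : A →ₐ[ℂ] B) : AM A →A[ℂ] B where
  toAlgHom := (show AM A →ₐ[ℂ] B from f)
  cont := by
    refine LMC.withSeminorms.continuous_of_continuous_comp
      ((show AM A →ₐ[ℂ] B from f).toLinearMap) fun p => ?_
    exact (am_withSeminorms A).continuous_seminorm ⟨p.1.comp f.toLinearMap, fun a b => by
      simpa using p.2.2 (f a) (f b)⟩

end

variable [UniformSpace B] [IsUniformAddGroup B] [LMC B] [IsTopologicalRing B]
  [UniformContinuousConstSMul ℂ B] [CompleteSpace B] [T0Space B]

/-- The universal property of the envelope: a homomorphism from `A` to an Arens-Michael algebra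
extends to a continuous homomorphism on `Env A`. -/
def Env.lift (f : A →ₐ[ℂ] B) : Env A →A[ℂ] B where
  toFun := (amHom f).toContinuousLinearMap.fromCompletion
  map_one' := by
    rw [← Completion.coe_one, ContinuousLinearMap.fromCompletion_apply_coe]
    exact map_one f
  map_mul' x y := by
    induction x, y using Completion.induction_on₂ with
    | hp => exact isClosed_eq (by fun_prop) (by fun_prop)
    | ih a b =>
      rw [← Completion.coe_mul, ContinuousLinearMap.fromCompletion_apply_coe,
        ContinuousLinearMap.fromCompletion_apply_coe, ContinuousLinearMap.fromCompletion_apply_coe]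
      exact map_mul f a b
  map_zero' := map_zero _
  map_add' := map_add _
  commutes' c := by
    have : algebraMap ℂ (Env A) c = toEnv A (algebraMap ℂ A c) := rfl
    rw [this]
    exact (ContinuousLinearMap.fromCompletion_apply_coe _ _).trans (AlgHom.commutes f c)
  cont := by
    exact ((amHom f).toContinuousLinearMap.fromCompletion).continuous

lemma Env.lift_toEnv (f : A →ₐ[ℂ] B) (a : A) : Env.lift f (toEnv A a) = f a :=
  ContinuousLinearMap.fromCompletion_apply_coe (amHom f).toContinuousLinearMap _

end Universal

lemma denseRange_toEnv (A : Type*) [Ring A] [Algebra ℂ A] : DenseRange (toEnv A) :=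
  Completion.denseRange_coe (α := AM A)

/-! ### The Hopf structure of the envelope -/

/-- The canonical homomorphism from an algebra to its completion. -/
def coeAlg (B : Type*) [Ring B] [Algebra ℂ B] [UniformSpace B] [IsUniformAddGroup B]
    [IsTopologicalRing B] [UniformContinuousConstSMul ℂ B] : B →ₐ[ℂ] Completion B where
  __ := Completion.coeRingHom (α := B)
  commutes' _ := rfl

instance {B : Type*} [NormedRing B] [NormedAlgebra ℂ B] : LMC B :=
  LMC.of_withSeminorms (norm_withSeminorms ℂ B) fun _ a b => norm_mul_le a b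

section Hopf

variable (H : Type*) [Ring H] [HopfAlgebra ℂ H]

/-- The homomorphism `ι ⊗ ι : H ⊗ H → Env H ⊗^ Env H`. -/
def toEnvTensor : H ⊗[ℂ] H →ₐ[ℂ] CTensor (Env H) (Env H) :=
  (coeAlg (ProjTensor (Env H) (Env H))).comp
    (show H ⊗[ℂ] H →ₐ[ℂ] ProjTensor (Env H) (Env H) from
      Algebra.TensorProduct.map (toEnv H) (toEnv H))

/-- The comultiplication of the envelope: the continuous homomorphism extending
`(ι ⊗ ι) ∘ Δ`. -/
def comulHat : Env H →A[ℂ] CTensor (Env H) (Env H) :=
  Env.lift ((toEnvTensor H).comp (Bialgebra.comulAlgHom ℂ H))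

/-- The counit of the envelope: the continuous homomorphism extending the counit of `H`. -/
def counitHat : Env H →A[ℂ] ℂ := Env.lift (Bialgebra.counitAlgHom ℂ H)

/-- The antipode of `H` is continuous on `AM H`. -/
def amAntipode : AM H →L[ℂ] AM H where
  toLinearMap := (show AM H →ₗ[ℂ] AM H from HopfAlgebra.antipode ℂ (A := H))
  cont := by
    refine (am_withSeminorms H).continuous_of_continuous_comp
      (show AM H →ₗ[ℂ] AM H from HopfAlgebra.antipode ℂ (A := H)) fun p => ?_
    exact (am_withSeminorms H).continuous_seminorm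
      ⟨p.1.comp (HopfAlgebra.antipode ℂ (A := H)), fun a b => by
        have h := p.2 (HopfAlgebra.antipode ℂ b) (HopfAlgebra.antipode ℂ a)
        simp only [Seminorm.comp_apply, HopfAlgebra.antipode_mul_antidistrib]
        rw [mul_comm (p.1 (HopfAlgebra.antipode ℂ a))]
        exact h⟩

/-- The antipode of the envelope: the continuous linear map extending the antipode of `H`. -/
def antipodeHat : Env H →L[ℂ] Env H := (amAntipode H).completion

end Hopf

/-- An isomorphism of Hopf `⊗^`-algebras between the Arens-Michael envelopes of two Hopf algebras: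
an isomorphism of topological algebras that commutes with comultiplication, counit and
antipode. -/
structure EnvIso (H₁ H₂ : Type*) [Ring H₁] [HopfAlgebra ℂ H₁] [Ring H₂] [HopfAlgebra ℂ H₂] where
  /-- the underlying isomorphism of topological algebras -/
  equiv : Env H₁ ≃A[ℂ] Env H₂
  comul_comm : ∀ x, comulHat H₂ (equiv x) = cmap (equiv : Env H₁ →L[ℂ] Env H₂)
    (equiv : Env H₁ →L[ℂ] Env H₂) (comulHat H₁ x)
  counit_comm : ∀ x, counitHat H₂ (equiv x) = counitHat H₁ x
  antipode_comm : ∀ x, antipodeHat H₂ (equiv x) = equiv (antipodeHat H₁ x)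

end

end Pool.Agent.H.MP_e2f694_an
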