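import Pool.Agent.H.MP_e2f694_an.Defs

/-!
# The exponential series in an Arens-Michael algebra
-/

open UniformSpace Topology Filter
open scoped TensorProduct NNReal

namespace Pool.Agent.H.MP_e2f694_an

noncomputable section

set_option linter.unusedSectionVars false

variable {B : Type*} [Ring B] [Algebra ℂ B] [UniformSpace B] [IsUniformAddGroup B]
  [IsTopologicalRing B] [LMC B] [CompleteSpace B]

lemma summable_of_seminorms {ι : Type*} {f : ι → B}
    (h : ∀ p : Seminorm ℂ B, Continuous p → Submul p → Summable fun i => p (f i)) :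
    Summable f := by
  rw [summable_iff_vanishing]
  intro e he
  obtain ⟨p, hp, hs, hpe⟩ := LMC.exists_ball e he
  obtain ⟨s, hs'⟩ := summable_iff_vanishing.1 (h p hp hs) (Set.Iio 1) (gt_mem_nhds one_pos)
  refine ⟨s, fun t ht => hpe ?_⟩
  have h1 : ∑ b ∈ t, p (f b) < 1 := hs' t ht
  exact lt_of_le_of_lt (Finset.le_sum_of_subadditive p (map_zero p).le (map_add_le_add p) _ _) h1

/-- The terms of the exponential series. -/
def exTerm (x : B) (n : ℕ) : B := ((n.factorial : ℂ)⁻¹) • x ^ n

lemma seminorm_exTerm_le {p : Seminorm ℂ B} (hs : Submul p) (x : B) (n : ℕ) :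
    p (exTerm x n) ≤ p 1 * (p x ^ n / n.factorial) := by
  have h : ∀ n : ℕ, p (x ^ n) ≤ p 1 * p x ^ n := by
    intro n
    induction n with
    | zero => simp
    | succ n ih =>
      rw [pow_succ, pow_succ, ← mul_assoc]
      exact (hs _ _).trans (mul_le_mul_of_nonneg_right ih (apply_nonneg _ _))
  rw [exTerm, map_smul_eq_mul, norm_inv, Complex.norm_natCast]
  calc ((n.factorial : ℝ)⁻¹) * p (x ^ n) ≤ ((n.factorial : ℝ)⁻¹) * (p 1 * p x ^ n) :=
        mul_le_mul_of_nonneg_left (h n) (by positivity)
    _ = _ := by ring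

lemma summable_seminorm_exTerm {p : Seminorm ℂ B} (hs : Submul p) (x : B) :
    Summable fun n => p (exTerm x n) :=
  Summable.of_nonneg_of_le (fun _ => apply_nonneg _ _) (seminorm_exTerm_le hs x)
    ((Real.summable_pow_div_factorial (p x)).mul_left _)

lemma summable_exTerm (x : B) : Summable (exTerm x) :=
  summable_of_seminorms fun _ _ hs => summable_seminorm_exTerm hs x

/-- The exponential. -/
def ex (x : B) : B := ∑' n, exTerm x n

variable [T0Space B]

lemma ex_mul_ex {x y : B} (hxy : Commute x y) : ex x * ex y = ex (x + y) := by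
  have hfg : Summable fun z : ℕ × ℕ => exTerm x z.1 * exTerm y z.2 :=
    summable_of_seminorms fun p _ hs =>
      Summable.of_nonneg_of_le (fun _ => apply_nonneg _ _) (fun z => hs _ _)
        (Summable.mul_of_nonneg (summable_seminorm_exTerm hs x) (summable_seminorm_exTerm hs y)
          (fun _ => apply_nonneg _ _) (fun _ => apply_nonneg _ _))
  rw [ex, ex, ex, (summable_exTerm x).tsum_mul_tsum_eq_tsum_sum_antidiagonal
    (summable_exTerm y) hfg]
  refine tsum_congr fun n => ?_
  rw [exTerm, hxy.add_pow' _, Finset.smul_sum]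
  refine Finset.sum_congr rfl fun kl hkl => ?_
  rw [exTerm, exTerm, ← Nat.cast_smul_eq_nsmul ℂ, smul_smul, smul_mul_smul_comm,
    ← Finset.HasAntidiagonal.mem_antidiagonal.mp hkl, Nat.cast_add_choose, Finset.HasAntidiagonal.mem_antidiagonal.mp hkl]
  field_simp [n.factorial_ne_zero]

lemma ex_zero : ex (0 : B) = 1 := by
  rw [ex, tsum_eq_single 0]
  · simp [exTerm]
  · intro n hn
    simp [exTerm, hn]

lemma ex_neg_mul (x : B) : ex (-x) * ex x = 1 := by
  rw [ex_mul_ex (Commute.refl x).neg_left, neg_add_cancel, ex_zero]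

lemma ex_mul_neg (x : B) : ex x * ex (-x) = 1 := by
  rw [ex_mul_ex (Commute.refl x).neg_right, add_neg_cancel, ex_zero]

/-- If `x y = y z` then `exp(x) y = y exp(z)`. -/
lemma ex_mul_of_intertwine {x y z : B} (h : x * y = y * z) : ex x * y = y * ex z := by
  rw [ex, ex, ← (summable_exTerm x).tsum_mul_right, ← (summable_exTerm z).tsum_mul_left]
  refine tsum_congr fun n => ?_
  rw [exTerm, exTerm, smul_mul_assoc, mul_smul_comm]
  congr 1
  exact (SemiconjBy.pow_right (show SemiconjBy y z x from h.symm) n).eq.symm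

lemma ex_complex (c : ℂ) : ex c = Complex.exp c := by
  rw [ex, Complex.exp_eq_exp_ℂ, NormedSpace.exp_eq_tsum ℂ]
  rfl

section map

variable {B' : Type*} [Ring B'] [Algebra ℂ B'] [UniformSpace B'] [IsUniformAddGroup B']
  [IsTopologicalRing B'] [LMC B'] [CompleteSpace B'] [T0Space B']

lemma ex_map {F : Type*} [FunLike F B B'] [AlgHomClass F ℂ B B'] (f : F) (hf : Continuous f)
    (x : B) : f (ex x) = ex (f x) := by
  rw [ex, ex]
  have h := (summable_exTerm x).map_tsum f hf
  rw [h]
  refine tsum_congr fun n => ?_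
  rw [exTerm, exTerm, map_smul, map_pow]

end map

lemma ex_algebraMap [ContinuousSMul ℂ B] (c : ℂ) :
    ex (algebraMap ℂ B c) = algebraMap ℂ B (Complex.exp c) := by
  rw [← ex_complex]
  exact (ex_map (Algebra.ofId ℂ B) (continuous_algebraMap ℂ B) c).symm

end

end Pool.Agent.H.MP_e2f694_an
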