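import Mathlib

/-!
# The Hopf algebras `HQ q`

`HQ q` is generated by `x, y, t, t⁻¹` with the relations `[x,y] = y`, `t x = x t`, `t y = q y t`;
`x` and `y` are primitive and `t` is group-like.
-/

open scoped TensorProduct

namespace Pool.Agent.H.MP_e2f694_an

noncomputable section

/-- The names of the generators. -/
inductive Gen : Type
  | x | y | t | u

open FreeAlgebra in
/-- The defining relations of `HQ q`. -/
inductive HRel (q : ℂ) : FreeAlgebra ℂ Gen → FreeAlgebra ℂ Gen → Prop
  | tu : HRel q (ι ℂ Gen.t * ι ℂ Gen.u) 1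
  | ut : HRel q (ι ℂ Gen.u * ι ℂ Gen.t) 1
  | xy : HRel q (ι ℂ Gen.x * ι ℂ Gen.y) (ι ℂ Gen.y * ι ℂ Gen.x + ι ℂ Gen.y)
  | tx : HRel q (ι ℂ Gen.t * ι ℂ Gen.x) (ι ℂ Gen.x * ι ℂ Gen.t)
  | ty : HRel q (ι ℂ Gen.t * ι ℂ Gen.y) (q • (ι ℂ Gen.y * ι ℂ Gen.t))

/-- The algebra generated by `x, y, t, t⁻¹` with `[x,y] = y`, `t x = x t`, `t y = q y t`. -/
def HQ (q : ℂ) : Type := RingQuot (HRel q)

variable (q : ℂ)

instance : Ring (HQ q) := inferInstanceAs (Ring (RingQuot (HRel q)))
instance : Algebra ℂ (HQ q) := inferInstanceAs (Algebra ℂ (RingQuot (HRel q)))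

namespace HQ

/-- The quotient map. -/
def mk : FreeAlgebra ℂ Gen →ₐ[ℂ] HQ q := RingQuot.mkAlgHom ℂ (HRel q)

lemma mk_rel {a b : FreeAlgebra ℂ Gen} (h : HRel q a b) : mk q a = mk q b :=
  RingQuot.mkAlgHom_rel ℂ h

/-- The image of a generator. -/
def gen (g : Gen) : HQ q := mk q (FreeAlgebra.ι ℂ g)

lemma tu : gen q .t * gen q .u = 1 := by
  simpa only [gen, map_mul, map_one] using mk_rel q HRel.tu

lemma ut : gen q .u * gen q .t = 1 := by
  simpa only [gen, map_mul, map_one] using mk_rel q HRel.ut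

lemma xy : gen q .x * gen q .y = gen q .y * gen q .x + gen q .y := by
  simpa only [gen, map_mul, map_add] using mk_rel q HRel.xy

lemma tx : gen q .t * gen q .x = gen q .x * gen q .t := by
  simpa only [gen, map_mul] using mk_rel q HRel.tx

lemma ty : gen q .t * gen q .y = q • (gen q .y * gen q .t) := by
  simpa only [gen, map_mul, map_smul] using mk_rel q HRel.ty

/-- Four elements of an algebra satisfying the relations of `HQ q`. -/
structure Quad (B : Type*) [Ring B] [Algebra ℂ B] where
  f : Gen → B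
  tu : f .t * f .u = 1
  ut : f .u * f .t = 1
  xy : f .x * f .y = f .y * f .x + f .y
  tx : f .t * f .x = f .x * f .t
  ty : f .t * f .y = q • (f .y * f .t)

variable {q} {B : Type*} [Ring B] [Algebra ℂ B]

/-- The universal property of `HQ q`. -/
def lift (Q : Quad q B) : HQ q →ₐ[ℂ] B :=
  RingQuot.liftAlgHom ℂ ⟨FreeAlgebra.lift ℂ Q.f, by
    intro a b h
    induction h with
    | tu => simpa using Q.tu
    | ut => simpa using Q.ut
    | xy => simpa using Q.xy
    | tx => simpa using Q.tx
    | ty => simpa using Q.ty⟩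

@[simp] lemma lift_gen (Q : Quad q B) (g : Gen) : lift Q (gen q g) = Q.f g := by
  refine (RingQuot.liftAlgHom_mkAlgHom_apply ℂ _ _ _).trans ?_
  simp

lemma hom_ext {B : Type*} [Semiring B] [Algebra ℂ B] {f g : HQ q →ₐ[ℂ] B}
    (h : ∀ i, f (gen q i) = g (gen q i)) : f = g := by
  apply RingQuot.ringQuot_ext'
  apply FreeAlgebra.hom_ext
  funext i
  exact h i

/-- Induction principle. -/
lemma induction {P : HQ q → Prop} (h1 : ∀ c : ℂ, P (algebraMap ℂ _ c)) (hg : ∀ i, P (gen q i))
    (ha : ∀ a b, P a → P b → P (a + b)) (hm : ∀ a b, P a → P b → P (a * b)) (a : HQ q) : P a := by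
  obtain ⟨a, rfl⟩ := RingQuot.mkAlgHom_surjective ℂ (HRel q) a
  induction a using FreeAlgebra.induction with
  | grade0 c =>
    rw [AlgHom.commutes]
    exact h1 c
  | grade1 i => exact hg i
  | mul a b hA hB => rw [map_mul]; exact hm _ _ hA hB
  | add a b hA hB => rw [map_add]; exact ha _ _ hA hB

instance : Finite Gen := Finite.of_injective
  (fun g : Gen => (match g with | .x => 0 | .y => 1 | .t => 2 | .u => 3 : Fin 4))
  (by intro a b; cases a <;> cases b <;> simp)

instance : Algebra.FiniteType ℂ (HQ q) :=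
  Algebra.FiniteType.of_surjective (mk q) (RingQuot.mkAlgHom_surjective ℂ (HRel q))

variable (q)

/-- The comultiplication on generators. -/
def comulGen : Gen → HQ q ⊗[ℂ] HQ q
  | .x => gen q .x ⊗ₜ 1 + 1 ⊗ₜ gen q .x
  | .y => gen q .y ⊗ₜ 1 + 1 ⊗ₜ gen q .y
  | .t => gen q .t ⊗ₜ gen q .t
  | .u => gen q .u ⊗ₜ gen q .u

/-- The comultiplication. -/
def comulHom : HQ q →ₐ[ℂ] HQ q ⊗[ℂ] HQ q := lift
  { f := comulGen q
    tu := by simp [comulGen, tu, Algebra.TensorProduct.one_def]
    ut := by simp [comulGen, ut, Algebra.TensorProduct.one_def]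
    xy := by
      simp [comulGen, mul_add, add_mul, xy, TensorProduct.add_tmul, TensorProduct.tmul_add]
      abel
    tx := by
      simp [comulGen, mul_add, add_mul, tx]
    ty := by
      simp [comulGen, mul_add, add_mul, ty, TensorProduct.smul_tmul'] }

/-- The counit on generators. -/
def counitGen : Gen → ℂ
  | .x => 0
  | .y => 0
  | .t => 1
  | .u => 1

/-- The counit. -/
def counitHom : HQ q →ₐ[ℂ] ℂ := lift
  { f := counitGen
    tu := by simp [counitGen]
    ut := by simp [counitGen]
    xy := by simp [counitGen]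
    tx := by simp [counitGen]
    ty := by simp [counitGen] }

instance : Bialgebra ℂ (HQ q) := Bialgebra.ofAlgHom (comulHom q) (counitHom q)
  (by
    apply hom_ext
    intro i
    cases i <;> simp [comulHom, comulGen, Algebra.TensorProduct.one_def, TensorProduct.add_tmul, TensorProduct.tmul_add, add_assoc])
  (by
    apply hom_ext
    intro i
    cases i <;> simp [comulHom, comulGen, counitHom, counitGen])
  (by
    apply hom_ext
    intro i
    cases i <;> simp [comulHom, comulGen, counitHom, counitGen])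

@[simp] lemma comul_gen (i : Gen) : Coalgebra.comul (R := ℂ) (gen q i) = comulGen q i :=
  lift_gen _ _

@[simp] lemma counit_gen (i : Gen) : Coalgebra.counit (R := ℂ) (gen q i) = counitGen i :=
  lift_gen _ _

lemma ux : gen q .u * gen q .x = gen q .x * gen q .u := by
  calc gen q .u * gen q .x = gen q .u * gen q .x * (gen q .t * gen q .u) := by rw [tu, mul_one]
    _ = gen q .u * (gen q .x * gen q .t) * gen q .u := by simp only [mul_assoc]
    _ = gen q .u * (gen q .t * gen q .x) * gen q .u := by rw [tx]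
    _ = (gen q .u * gen q .t) * (gen q .x * gen q .u) := by simp only [mul_assoc]
    _ = _ := by rw [ut, one_mul]

lemma yu : gen q .y * gen q .u = q • (gen q .u * gen q .y) := by
  calc gen q .y * gen q .u = (gen q .u * gen q .t) * (gen q .y * gen q .u) := by rw [ut, one_mul]
    _ = gen q .u * (gen q .t * gen q .y) * gen q .u := by simp only [mul_assoc]
    _ = gen q .u * (q • (gen q .y * gen q .t)) * gen q .u := by rw [ty]
    _ = q • (gen q .u * gen q .y * (gen q .t * gen q .u)) := by
      simp only [mul_smul_comm, smul_mul_assoc, mul_assoc]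
    _ = _ := by rw [tu, mul_one]

/-- The antipode on generators. -/
def antipodeGen : Gen → (HQ q)ᵐᵒᵖ
  | .x => MulOpposite.op (-gen q .x)
  | .y => MulOpposite.op (-gen q .y)
  | .t => MulOpposite.op (gen q .u)
  | .u => MulOpposite.op (gen q .t)

/-- The antipode, as a homomorphism to the opposite algebra. -/
def antipodeHom : HQ q →ₐ[ℂ] (HQ q)ᵐᵒᵖ := lift
  { f := antipodeGen q
    tu := by simp [antipodeGen, ← MulOpposite.op_mul, tu]
    ut := by simp [antipodeGen, ← MulOpposite.op_mul, ut]
    xy := by simp [antipodeGen, ← MulOpposite.op_mul, ← MulOpposite.op_add, xy,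
      -MulOpposite.op_neg, ← sub_eq_add_neg]
    tx := by simp [antipodeGen, ← MulOpposite.op_mul, ux]
    ty := by simp [antipodeGen, ← MulOpposite.op_mul, yu] }

/-- The antipode, as a linear map. -/
def anti : HQ q →ₗ[ℂ] HQ q :=
  (MulOpposite.opLinearEquiv ℂ).symm.toLinearMap ∘ₗ (antipodeHom q).toLinearMap

lemma anti_mul (a b : HQ q) : anti q (a * b) = anti q b * anti q a := by
  simp [anti]

lemma anti_one : anti q 1 = 1 := by
  simp [anti]

lemma anti_algebraMap (c : ℂ) : anti q (algebraMap ℂ _ c) = algebraMap ℂ _ c := by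
  rw [Algebra.algebraMap_eq_smul_one, map_smul, anti_one]

/-- `a ⊗ b ↦ S(a) b`. -/
def mS : HQ q ⊗[ℂ] HQ q →ₗ[ℂ] HQ q := LinearMap.mul' ℂ (HQ q) ∘ₗ (anti q).rTensor (HQ q)

/-- `a ⊗ b ↦ a S(b)`. -/
def mS' : HQ q ⊗[ℂ] HQ q →ₗ[ℂ] HQ q := LinearMap.mul' ℂ (HQ q) ∘ₗ (anti q).lTensor (HQ q)

@[simp] lemma mS_tmul (a b : HQ q) : mS q (a ⊗ₜ b) = anti q a * b := by simp [mS]
@[simp] lemma mS'_tmul (a b : HQ q) : mS' q (a ⊗ₜ b) = a * anti q b := by simp [mS']

lemma mS_mul_tmul (z : HQ q ⊗[ℂ] HQ q) (a b : HQ q) :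
    mS q (z * a ⊗ₜ b) = anti q a * mS q z * b := by
  induction z using TensorProduct.induction_on with
  | zero => simp
  | tmul c d => simp [anti_mul, mul_assoc]
  | add z w hz hw => rw [add_mul, map_add, hz, hw, map_add, mul_add, add_mul]

lemma mS_mul {z : HQ q ⊗[ℂ] HQ q} {c : ℂ} (hz : mS q z = algebraMap ℂ _ c)
    (w : HQ q ⊗[ℂ] HQ q) : mS q (z * w) = c • mS q w := by
  induction w using TensorProduct.induction_on with
  | zero => simp
  | tmul a b => rw [mS_mul_tmul, hz, mS_tmul, ← Algebra.commutes, mul_assoc, Algebra.smul_def]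
  | add z w hz hw => rw [mul_add, map_add, hz, hw, map_add, smul_add]

lemma mS'_tmul_mul (z : HQ q ⊗[ℂ] HQ q) (a b : HQ q) :
    mS' q (a ⊗ₜ b * z) = a * mS' q z * anti q b := by
  induction z using TensorProduct.induction_on with
  | zero => simp
  | tmul c d => simp [anti_mul, mul_assoc]
  | add z w hz hw => rw [mul_add, map_add, hz, hw, map_add, mul_add, add_mul]

lemma mS'_mul {z : HQ q ⊗[ℂ] HQ q} {c : ℂ} (hz : mS' q z = algebraMap ℂ _ c)
    (w : HQ q ⊗[ℂ] HQ q) : mS' q (w * z) = c • mS' q w := by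
  induction w using TensorProduct.induction_on with
  | zero => simp
  | tmul a b => rw [mS'_tmul_mul, hz, mS'_tmul, ← Algebra.commutes, mul_assoc, Algebra.smul_def]
  | add z w hz hw => rw [add_mul, map_add, hz, hw, map_add, smul_add]

instance : HopfAlgebra ℂ (HQ q) where
  antipode := anti q
  mul_antipode_rTensor_comul := by
    ext a
    change mS q (Coalgebra.comul a) = algebraMap ℂ _ (Coalgebra.counit (R := ℂ) a)
    induction a using HQ.induction with
    | h1 c => simp [Algebra.TensorProduct.algebraMap_apply, anti_algebraMap]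
    | hg i => cases i <;> simp [comulGen, counitGen, anti, antipodeHom, antipodeGen, tu, ut]
    | ha a b ha hb => simp [ha, hb]
    | hm a b ha hb =>
      rw [Bialgebra.comul_mul, mS_mul q ha, hb, Bialgebra.counit_mul, map_mul, Algebra.smul_def]
  mul_antipode_lTensor_comul := by
    ext a
    change mS' q (Coalgebra.comul a) = algebraMap ℂ _ (Coalgebra.counit (R := ℂ) a)
    induction a using HQ.induction with
    | h1 c => simp [Algebra.TensorProduct.algebraMap_apply, anti_one]
    | hg i => cases i <;> simp [comulGen, counitGen, anti, antipodeHom, antipodeGen, tu, ut]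
    | ha a b ha hb => simp [ha, hb]
    | hm a b ha hb =>
      rw [Bialgebra.comul_mul, mS'_mul q hb, ha, Bialgebra.counit_mul, map_mul, Algebra.smul_def,
        Algebra.commutes]

/-! ### `HQ 1` and `HQ q` are not isomorphic for `q ≠ 1` -/

variable {q}

/-- The two-dimensional representation of `HQ q`. -/
def rho (hq : q ≠ 0) : HQ q →ₐ[ℂ] Matrix (Fin 2) (Fin 2) ℂ := lift
  { f := fun g => match g with
      | .x => !![0, 0; 0, 1]
      | .y => !![0, 0; 1, 0]
      | .t => !![1, 0; 0, q]
      | .u => !![1, 0; 0, q⁻¹]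
    tu := by ext i j; fin_cases i <;> fin_cases j <;> simp [hq]
    ut := by ext i j; fin_cases i <;> fin_cases j <;> simp [hq]
    xy := by ext i j; fin_cases i <;> fin_cases j <;> simp
    tx := by ext i j; fin_cases i <;> fin_cases j <;> simp
    ty := by ext i j; fin_cases i <;> fin_cases j <;> simp }

lemma rho_lower (hq : q ≠ 0) (a : HQ q) : rho hq a 0 1 = 0 := by
  induction a using HQ.induction with
  | h1 c => simp [Matrix.algebraMap_matrix_apply]
  | hg i => cases i <;> simp [rho]
  | ha a b ha hb => simp [ha, hb]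
  | hm a b ha hb => simp [Matrix.mul_apply, Fin.sum_univ_two, ha, hb]

/-- A representation by lower triangular matrices has two diagonal characters. -/
def diagChar {A : Type*} [Ring A] [Algebra ℂ A] (ρ : A →ₐ[ℂ] Matrix (Fin 2) (Fin 2) ℂ)
    (h : ∀ a, ρ a 0 1 = 0) (i : Fin 2) : A →ₐ[ℂ] ℂ where
  toFun a := ρ a i i
  map_one' := by simp
  map_mul' a b := by
    fin_cases i <;> simp [Matrix.mul_apply, Fin.sum_univ_two, h]
  map_zero' := by simp
  map_add' a b := by simp
  commutes' c := by simp [Matrix.algebraMap_matrix_apply]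

/-- In `HQ 1`, the value of a unit at a character `χ` depends only on `χ t`. -/
lemma unit_value {χ χ' : HQ 1 →ₐ[ℂ] ℂ} (ht : χ (gen 1 .t) = χ' (gen 1 .t)) (hy : χ (gen 1 .y) = 0)
    (hy' : χ' (gen 1 .y) = 0) {w : HQ 1} (hw : IsUnit w) : χ w = χ' w := by
  have h1 : χ (gen 1 .t) * χ (gen 1 .u) = 1 := by rw [← map_mul, tu, map_one]
  have h1' : χ' (gen 1 .t) * χ' (gen 1 .u) = 1 := by rw [← map_mul, tu, map_one]
  have hu : χ (gen 1 .u) = χ' (gen 1 .u) := by
    have ht0 : χ (gen 1 .t) ≠ 0 := left_ne_zero_of_mul_eq_one h1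
    rw [← ht] at h1'
    exact mul_left_cancel₀ ht0 (h1.trans h1'.symm)
  let π : HQ 1 →ₐ[ℂ] Polynomial ℂ := lift
    { f := fun g => match g with
        | .x => Polynomial.X
        | .y => 0
        | .t => Polynomial.C (χ (gen 1 .t))
        | .u => Polynomial.C (χ (gen 1 .u))
      tu := by simp only [← Polynomial.C_mul, h1, Polynomial.C_1]
      ut := by simp only [← Polynomial.C_mul, mul_comm (χ (gen 1 .u)), h1, Polynomial.C_1]
      xy := by simp
      tx := mul_comm _ _
      ty := by simp }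
  have e1 : χ = (Polynomial.aeval (χ (gen 1 .x))).comp π := by
    apply hom_ext
    intro i
    cases i <;> simp [π, hy]
  have e2 : χ' = (Polynomial.aeval (χ' (gen 1 .x))).comp π := by
    apply hom_ext
    intro i
    cases i <;> simp [π, hy', ht, hu]
  obtain ⟨k, -, hk⟩ := Polynomial.isUnit_iff.1 (hw.map π)
  rw [e1, e2]
  simp only [AlgHom.comp_apply, ← hk, Polynomial.aeval_C]

theorem not_iso (hq : q ≠ 0) (hq1 : q ≠ 1) : IsEmpty (HQ 1 ≃ₐ[ℂ] HQ q) := by
  refine ⟨fun e => hq1 ?_⟩
  let ρ : HQ 1 →ₐ[ℂ] Matrix (Fin 2) (Fin 2) ℂ := (rho hq).comp e.toAlgHom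
  have hρ : ∀ a, ρ a 0 1 = 0 := fun a => rho_lower hq (e a)
  have hxy := congrArg ρ (xy 1)
  have hty := congrArg ρ (ty 1)
  rw [map_mul, map_add, map_mul] at hxy
  rw [one_smul, map_mul, map_mul] at hty
  have hy0 : ρ (gen 1 .y) 0 0 = 0 := by
    have := congrFun (congrFun hxy 0) 0
    simp [Matrix.mul_apply, Fin.sum_univ_two, hρ] at this
    linear_combination -this
  have hy1 : ρ (gen 1 .y) 1 1 = 0 := by
    have := congrFun (congrFun hxy 1) 1
    simp [Matrix.mul_apply, Fin.sum_univ_two, hρ] at this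
    linear_combination -this
  have hyc : ρ (gen 1 .y) 1 0 ≠ 0 := by
    intro h0
    have hY : ρ (gen 1 .y) = 0 := by
      ext i j
      fin_cases i <;> fin_cases j <;> simp [hy0, hy1, h0, hρ]
    have hcomm : ∀ i j, Commute (ρ (gen 1 i)) (ρ (gen 1 j)) := by
      have htu : Commute (ρ (gen 1 .t)) (ρ (gen 1 .u)) := by
        rw [Commute, SemiconjBy, ← map_mul, ← map_mul, tu, ut]
      have htx : Commute (ρ (gen 1 .t)) (ρ (gen 1 .x)) := by
        rw [Commute, SemiconjBy, ← map_mul, ← map_mul, tx]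
      have hux : Commute (ρ (gen 1 .u)) (ρ (gen 1 .x)) := by
        rw [Commute, SemiconjBy, ← map_mul, ← map_mul, ux]
      intro i j
      cases i <;> cases j <;>
        first
        | exact Commute.refl _
        | (rw [hY]; exact Commute.zero_left _)
        | (rw [hY]; exact Commute.zero_right _)
        | exact htu
        | exact htu.symm
        | exact htx
        | exact htx.symm
        | exact hux
        | exact hux.symm
    have hcomm2 : ∀ i b, Commute (ρ (gen 1 i)) (ρ b) := by
      intro i b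
      induction b using HQ.induction with
      | h1 c => rw [AlgHom.commutes]; exact (Algebra.commutes c _).symm
      | hg j => exact hcomm i j
      | ha a b ha hb => rw [map_add]; exact ha.add_right hb
      | hm a b ha hb => rw [map_mul]; exact ha.mul_right hb
    have hcomm3 : ∀ a b, Commute (ρ a) (ρ b) := by
      intro a b
      induction a using HQ.induction with
      | h1 c => rw [AlgHom.commutes]; exact Algebra.commutes c _
      | hg j => exact hcomm2 j b
      | ha a b ha hb => rw [map_add]; exact ha.add_left hb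
      | hm a b ha hb => rw [map_mul]; exact ha.mul_left hb
    have h1 := hcomm3 (e.symm (gen q .x)) (e.symm (gen q .y))
    have h2 : Commute (rho hq (gen q .x)) (rho hq (gen q .y)) := by
      simpa [ρ] using h1
    have h3 := congrFun (congrFun h2.eq 1) 0
    simp [rho, Matrix.mul_apply, Fin.sum_univ_two] at h3
  have ht : ρ (gen 1 .t) 0 0 = ρ (gen 1 .t) 1 1 := by
    have := congrFun (congrFun hty 1) 0
    simp [Matrix.mul_apply, Fin.sum_univ_two, hy0, hy1] at this
    have h4 : ρ (gen 1 .y) 1 0 * (ρ (gen 1 .t) 0 0 - ρ (gen 1 .t) 1 1) = 0 := by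
      linear_combination -this
    exact sub_eq_zero.1 ((mul_eq_zero.1 h4).resolve_left hyc)
  have hunit : IsUnit (e.symm (gen q .t)) := by
    have : IsUnit (gen q .t) := ⟨⟨gen q .t, gen q .u, tu q, ut q⟩, rfl⟩
    exact this.map e.symm
  have key := unit_value (χ := diagChar ρ hρ 0) (χ' := diagChar ρ hρ 1) ht hy0 hy1 hunit
  have k0 : diagChar ρ hρ 0 (e.symm (gen q .t)) = 1 := by
    change rho hq (e (e.symm (gen q .t))) 0 0 = 1
    simp [rho]
  have k1 : diagChar ρ hρ 1 (e.symm (gen q .t)) = q := by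
    change rho hq (e (e.symm (gen q .t))) 1 1 = q
    simp [rho]
  rw [k0, k1] at key
  exact key.symm

end HQ

end

end Pool.Agent.H.MP_e2f694_an
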