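import Pool.Agent.H.MP_e2f694_an.Iso

/-!
# The canonical map from `HQ q` to its envelope is injective
-/

open UniformSpace Topology Filter
open scoped TensorProduct NNReal Matrix

namespace Pool.Agent.H.MP_e2f694_an

noncomputable section

set_option linter.unusedSectionVars false

namespace HQ

variable {q : ℂ}

/-- `t` as a unit. -/
def tU (q : ℂ) : (HQ q)ˣ := ⟨gen q .t, gen q .u, tu q, ut q⟩

/-- The monomial `y^a x^b t^c`. -/
def mon (q : ℂ) (z : ℕ × (ℕ × ℤ)) : HQ q :=
  gen q .y ^ z.1 * gen q .x ^ z.2.1 * ((tU q ^ z.2.2 : (HQ q)ˣ) : HQ q)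

lemma y_mul_mon (a b : ℕ) (c : ℤ) : gen q .y * mon q (a, b, c) = mon q (a + 1, b, c) := by
  simp only [mon, pow_succ', mul_assoc]

lemma x_mul_ypow (a : ℕ) :
    gen q .x * gen q .y ^ a = gen q .y ^ a * gen q .x + (a : ℂ) • gen q .y ^ a := by
  induction a with
  | zero => simp
  | succ a ih =>
    rw [pow_succ, ← mul_assoc, ih, add_mul, mul_assoc, xy, mul_add, smul_mul_assoc, ← mul_assoc,
      Nat.cast_succ, add_smul, one_smul]
    abel

lemma x_mul_mon (a b : ℕ) (c : ℤ) :
    gen q .x * mon q (a, b, c) = mon q (a, b + 1, c) + (a : ℂ) • mon q (a, b, c) := by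
  simp only [mon]
  rw [← mul_assoc, ← mul_assoc, x_mul_ypow, add_mul, add_mul, pow_succ' (gen q .x) b,
    smul_mul_assoc, smul_mul_assoc, mul_assoc (gen q .y ^ a) (gen q .x)]

lemma t_mul_ypow (a : ℕ) :
    gen q .t * gen q .y ^ a = q ^ a • (gen q .y ^ a * gen q .t) := by
  induction a with
  | zero => simp
  | succ a ih =>
    rw [pow_succ, ← mul_assoc, ih, smul_mul_assoc, mul_assoc, ty, mul_smul_comm, smul_smul,
      ← mul_assoc, pow_succ q]

lemma t_mul_xpow (b : ℕ) : gen q .t * gen q .x ^ b = gen q .x ^ b * gen q .t :=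
  (SemiconjBy.pow_right (show SemiconjBy (gen q .t) (gen q .x) (gen q .x) from tx q) b).eq

lemma t_mul_mon (a b : ℕ) (c : ℤ) :
    gen q .t * mon q (a, b, c) = q ^ a • mon q (a, b, c + 1) := by
  have h : ((tU q ^ (c + 1) : (HQ q)ˣ) : HQ q) = gen q .t * ((tU q ^ c : (HQ q)ˣ) : HQ q) := by
    rw [add_comm, zpow_add, zpow_one]
    rfl
  simp only [mon]
  rw [h, ← mul_assoc, ← mul_assoc, t_mul_ypow, smul_mul_assoc, smul_mul_assoc, mul_assoc _ (gen q .t),
    t_mul_xpow]
  simp only [mul_assoc]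

lemma u_mul_mon (hq : q ≠ 0) (a b : ℕ) (c : ℤ) :
    gen q .u * mon q (a, b, c) = (q ^ a)⁻¹ • mon q (a, b, c - 1) := by
  have h := t_mul_mon (q := q) a b (c - 1)
  rw [sub_add_cancel] at h
  have h2 : mon q (a, b, c) = (q ^ a)⁻¹ • (gen q .t * mon q (a, b, c - 1)) := by
    rw [h, smul_smul, inv_mul_cancel₀ (pow_ne_zero a hq), one_smul]
  rw [h2, mul_smul_comm, ← mul_assoc, ut, one_mul]

lemma span_mon (hq : q ≠ 0) : Submodule.span ℂ (Set.range (mon q)) = ⊤ := by
  set S := Submodule.span ℂ (Set.range (mon q)) with hS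
  have hmem : ∀ z, mon q z ∈ S := fun z => Submodule.subset_span ⟨z, rfl⟩
  have hgen : ∀ i, ∀ z ∈ S, gen q i * z ∈ S := by
    intro i z hz
    induction hz using Submodule.span_induction with
    | mem z hz =>
      obtain ⟨⟨a, b, c⟩, rfl⟩ := hz
      cases i with
      | x => rw [x_mul_mon]; exact S.add_mem (hmem _) (S.smul_mem _ (hmem _))
      | y => rw [y_mul_mon]; exact hmem _
      | t => rw [t_mul_mon]; exact S.smul_mem _ (hmem _)
      | u => rw [u_mul_mon hq]; exact S.smul_mem _ (hmem _)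
    | zero => rw [mul_zero]; exact S.zero_mem
    | add z w _ _ hz hw => rw [mul_add]; exact S.add_mem hz hw
    | smul r z _ hz => rw [mul_smul_comm]; exact S.smul_mem _ hz
  have hall : ∀ a : HQ q, ∀ z ∈ S, a * z ∈ S := by
    intro a
    induction a using HQ.induction with
    | h1 r => intro z hz; rw [← Algebra.smul_def]; exact S.smul_mem _ hz
    | hg i => exact hgen i
    | ha a b ha hb => intro z hz; rw [add_mul]; exact S.add_mem (ha z hz) (hb z hz)
    | hm a b ha hb => intro z hz; rw [mul_assoc]; exact ha _ (hb z hz)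
  have h1 : (1 : HQ q) ∈ S := by
    have := hmem (0, 0, 0)
    simpa [mon] using this
  rw [eq_top_iff]
  intro a _
  simpa using hall a 1 h1

/-- The finite-dimensional representation of `HQ q` on `ℂ^(N+1)` with highest weight `(s, τ)`. -/
def rep (hq : q ≠ 0) (N : ℕ) (s : ℂ) (τ : ℂˣ) : HQ q →ₐ[ℂ] Matrix (Fin (N + 1)) (Fin (N + 1)) ℂ :=
  lift
    { f := fun g => match g with
        | .x => Matrix.diagonal fun i => s + (i : ℕ)
        | .y => Matrix.of fun i j => if (i : ℕ) = j + 1 then 1 else 0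
        | .t => Matrix.diagonal fun i => τ * q ^ (i : ℕ)
        | .u => Matrix.diagonal fun i => (τ * q ^ (i : ℕ))⁻¹
      tu := by
        rw [Matrix.diagonal_mul_diagonal, ← Matrix.diagonal_one]
        congr 1
        funext i
        exact mul_inv_cancel₀ (mul_ne_zero τ.ne_zero (pow_ne_zero _ hq))
      ut := by
        rw [Matrix.diagonal_mul_diagonal, ← Matrix.diagonal_one]
        congr 1
        funext i
        exact inv_mul_cancel₀ (mul_ne_zero τ.ne_zero (pow_ne_zero _ hq))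
      xy := by
        ext i j
        simp only [Matrix.diagonal_mul, Matrix.mul_diagonal, Matrix.of_apply, Matrix.add_apply]
        split_ifs with h
        · rw [h]; push_cast; ring
        · ring
      tx := by
        rw [Matrix.diagonal_mul_diagonal, Matrix.diagonal_mul_diagonal]
        congr 1
        funext i
        exact mul_comm _ _
      ty := by
        ext i j
        simp only [Matrix.diagonal_mul, Matrix.mul_diagonal, Matrix.of_apply, Matrix.smul_apply,
          smul_eq_mul]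
        split_ifs with h
        · rw [h]; ring
        · ring }

/-- The basis vector `e_a` (zero if `a > N`). -/
def vec (N a : ℕ) : Fin (N + 1) → ℂ := fun i => if (i : ℕ) = a then 1 else 0

lemma rep_y_vec (hq : q ≠ 0) (N : ℕ) (s : ℂ) (τ : ℂˣ) (a : ℕ) :
    rep hq N s τ (gen q .y) *ᵥ vec N a = vec N (a + 1) := by
  rw [rep, lift_gen]
  funext i
  simp only [Matrix.mulVec, dotProduct, Matrix.of_apply, vec]
  by_cases h : (i : ℕ) = a + 1
  · have ha : a < N + 1 := by omega
    rw [Finset.sum_eq_single (⟨a, ha⟩ : Fin (N + 1))]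
    · simp [h]
    · intro b _ hb
      have : (b : ℕ) ≠ a := fun h' => hb (Fin.ext h')
      simp [this]
    · simp
  · rw [if_neg h]
    refine Finset.sum_eq_zero fun j _ => ?_
    by_cases hj : (j : ℕ) = a
    · rw [if_neg (by rw [hj]; exact h), zero_mul]
    · rw [if_neg hj, mul_zero]

lemma rep_x_vec (hq : q ≠ 0) (N : ℕ) (s : ℂ) (τ : ℂˣ) :
    rep hq N s τ (gen q .x) *ᵥ vec N 0 = s • vec N 0 := by
  rw [rep, lift_gen]
  funext i
  rw [Matrix.mulVec_diagonal]
  simp only [vec, Pi.smul_apply, smul_eq_mul]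
  split_ifs with h
  · rw [h]; simp
  · simp

lemma rep_t_vec (hq : q ≠ 0) (N : ℕ) (s : ℂ) (τ : ℂˣ) :
    rep hq N s τ (gen q .t) *ᵥ vec N 0 = (τ : ℂ) • vec N 0 := by
  rw [rep, lift_gen]
  funext i
  rw [Matrix.mulVec_diagonal]
  simp only [vec, Pi.smul_apply, smul_eq_mul]
  split_ifs with h
  · rw [h]; simp
  · simp

lemma rep_u_vec (hq : q ≠ 0) (N : ℕ) (s : ℂ) (τ : ℂˣ) :
    rep hq N s τ (gen q .u) *ᵥ vec N 0 = ((τ⁻¹ : ℂˣ) : ℂ) • vec N 0 := by
  rw [rep, lift_gen]
  funext i
  rw [Matrix.mulVec_diagonal]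
  simp only [vec, Pi.smul_apply, smul_eq_mul]
  split_ifs with h
  · rw [h]; simp
  · simp

lemma rep_tpow_vec (hq : q ≠ 0) (N : ℕ) (s : ℂ) (τ : ℂˣ) (c : ℤ) :
    rep hq N s τ ((tU q ^ c : (HQ q)ˣ) : HQ q) *ᵥ vec N 0 = ((τ ^ c : ℂˣ) : ℂ) • vec N 0 := by
  induction c using Int.induction_on with
  | zero => simp
  | succ n ih =>
    rw [zpow_add_one, zpow_add_one, Units.val_mul, map_mul, ← Matrix.mulVec_mulVec]
    change _ *ᵥ (rep hq N s τ (gen q .t) *ᵥ vec N 0) = _
    rw [rep_t_vec, Matrix.mulVec_smul, ih, smul_smul, Units.val_mul, mul_comm]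
  | pred n ih =>
    rw [zpow_sub_one, zpow_sub_one, Units.val_mul, map_mul, ← Matrix.mulVec_mulVec]
    change _ *ᵥ (rep hq N s τ (gen q .u) *ᵥ vec N 0) = _
    rw [rep_u_vec, Matrix.mulVec_smul, ih, smul_smul, Units.val_mul, mul_comm]

lemma rep_mon_vec (hq : q ≠ 0) (N : ℕ) (s : ℂ) (τ : ℂˣ) (z : ℕ × (ℕ × ℤ)) :
    rep hq N s τ (mon q z) *ᵥ vec N 0 = (s ^ z.2.1 * ((τ ^ z.2.2 : ℂˣ) : ℂ)) • vec N z.1 := by
  obtain ⟨a, b, c⟩ := z
  simp only [mon]
  rw [map_mul, ← Matrix.mulVec_mulVec, rep_tpow_vec, Matrix.mulVec_smul, map_mul,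
    ← Matrix.mulVec_mulVec, map_pow, map_pow]
  have hx : ∀ b : ℕ, rep hq N s τ (gen q .x) ^ b *ᵥ vec N 0 = s ^ b • vec N 0 := by
    intro b
    induction b with
    | zero => simp
    | succ b ih =>
      rw [pow_succ, ← Matrix.mulVec_mulVec, rep_x_vec, Matrix.mulVec_smul, ih, smul_smul, pow_succ,
        mul_comm]
  have hy : ∀ a : ℕ, rep hq N s τ (gen q .y) ^ a *ᵥ vec N 0 = vec N a := by
    intro a
    induction a with
    | zero => simp
    | succ a ih => rw [pow_succ', ← Matrix.mulVec_mulVec, ih, rep_y_vec]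
  rw [hx, Matrix.mulVec_smul, hy, smul_smul, mul_comm]

/-- The multiplicative character `(s, τ) ↦ s^b τ^c`. -/
def chr (z : ℕ × ℤ) : ℂ × ℂˣ →* ℂ where
  toFun g := g.1 ^ z.1 * ((g.2 ^ z.2 : ℂˣ) : ℂ)
  map_one' := by simp
  map_mul' g h := by
    simp only [Prod.fst_mul, Prod.snd_mul, mul_pow, mul_zpow, Units.val_mul]
    ring

lemma chr_injective : Function.Injective chr := by
  rintro ⟨b, c⟩ ⟨b', c'⟩ h
  have h1 := DFunLike.congr_fun h (2, 1)
  have h2 := DFunLike.congr_fun h (1, Units.mk0 2 two_ne_zero)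
  simp only [chr, MonoidHom.coe_mk, OneHom.coe_mk, one_zpow, Units.val_one, mul_one, one_pow,
    one_mul, Units.val_zpow_eq_zpow_val, Units.val_mk0] at h1 h2
  have h1' : (2 : ℝ) ^ b = 2 ^ b' := by exact_mod_cast h1
  have h2' : (2 : ℝ) ^ c = 2 ^ c' := by
    apply Complex.ofReal_injective
    push_cast
    exact h2
  have e1 : b = b' := pow_right_injective₀ (by norm_num) (by norm_num) h1'
  have e2 : c = c' := zpow_right_injective₀ (by norm_num) (by norm_num) h2'
  rw [e1, e2]

lemma chr_linearIndependent : LinearIndependent ℂ (fun z g => chr z g : ℕ × ℤ → ℂ × ℂˣ → ℂ) :=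
  (linearIndependent_monoidHom (ℂ × ℂˣ) ℂ).comp chr chr_injective

lemma rep_last (hq : q ≠ 0) (N : ℕ) (g : ℂ × ℂˣ) (f : ℕ × (ℕ × ℤ) →₀ ℂ) :
    (rep hq N g.1 g.2 (Finsupp.linearCombination ℂ (mon q) f) *ᵥ vec N 0) (Fin.last N) =
      Finsupp.linearCombination ℂ (fun z => chr z g) (f.curry N) := by
  induction f using Finsupp.induction_linear with
  | zero =>
    have h0 : (0 : ℕ × (ℕ × ℤ) →₀ ℂ).curry N = 0 := rfl
    rw [h0]
    simp
  | add f f' hf hf' =>
    have h0 : (f + f').curry N = f.curry N + f'.curry N := by ext z; rfl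
    rw [map_add, map_add, Matrix.add_mulVec, Pi.add_apply, hf, hf', h0, map_add]
  | single a r =>
    obtain ⟨a, z⟩ := a
    rw [Finsupp.linearCombination_single, map_smul, Matrix.smul_mulVec, rep_mon_vec,
      Finsupp.curry_single]
    by_cases h : a = N
    · subst h
      rw [Finsupp.single_eq_same, Finsupp.linearCombination_single]
      simp [vec, chr]
    · rw [Finsupp.single_eq_of_ne' h]
      simp [vec, Ne.symm h]

/-- The finite-dimensional representations of `HQ q` separate its points. -/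
lemma eq_zero_of_rep (hq : q ≠ 0) (h : HQ q) (hh : ∀ N s τ, rep hq N s τ h = 0) : h = 0 := by
  have hmem : h ∈ Submodule.span ℂ (Set.range (mon q)) := by rw [span_mon hq]; trivial
  obtain ⟨f, hf⟩ := (Finsupp.mem_span_range_iff_exists_finsupp).1 hmem
  have hf' : Finsupp.linearCombination ℂ (mon q) f = h := hf
  suffices hf0 : f = 0 by rw [← hf', hf0, map_zero]
  ext ⟨N, z⟩
  have key : f.curry N = 0 := by
    refine (linearIndependent_iff.1 chr_linearIndependent) _ ?_
    funext g
    have h1 := rep_last hq N g f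
    rw [hf', hh, Matrix.zero_mulVec] at h1
    rw [Finsupp.linearCombination_apply, Finsupp.sum, Finset.sum_apply]
    rw [Finsupp.linearCombination_apply, Finsupp.sum] at h1
    exact h1.symm
  exact DFunLike.congr_fun key z

end HQ

/-- A submultiplicative seminorm vanishes on the kernel of the canonical map to the envelope. -/
lemma seminorm_eq_zero {A : Type*} [Ring A] [Algebra ℂ A] (p : Seminorm ℂ A) (hp : Submul p)
    {a : A} (ha : toEnv A a = 0) : p a = 0 := by
  have hc : Continuous (submulFamily A ⟨p, hp⟩) := (am_withSeminorms A).continuous_seminorm _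
  have h1 : compSeminorm (submulFamily A ⟨p, hp⟩) hc (toEnv A a) = p a := compSeminorm_coe _ hc _
  rw [← h1, ha, map_zero]

attribute [local instance] Matrix.linftyOpNormedRing Matrix.linftyOpNormedAlgebra in
/-- The canonical map from `HQ q` to its Arens-Michael envelope is injective. -/
theorem HQ.toEnv_injective {q : ℂ} (hq : q ≠ 0) : Function.Injective (toEnv (HQ q)) := by
  rw [injective_iff_map_eq_zero]
  intro h h0
  refine HQ.eq_zero_of_rep hq h fun N s τ => ?_
  let p : Seminorm ℂ (HQ q) :=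
    (normSeminorm ℂ (Matrix (Fin (N + 1)) (Fin (N + 1)) ℂ)).comp (HQ.rep hq N s τ).toLinearMap
  have hp : Submul p := fun a b => by
    change ‖HQ.rep hq N s τ (a * b)‖ ≤ ‖HQ.rep hq N s τ a‖ * ‖HQ.rep hq N s τ b‖
    rw [map_mul]
    exact norm_mul_le _ _
  have h1 := seminorm_eq_zero p hp h0
  change ‖HQ.rep hq N s τ h‖ = 0 at h1
  exact norm_eq_zero.1 h1

end

end Pool.Agent.H.MP_e2f694_an
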