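import Pool.Agent.H.MP_e2f694_an.Exp
import Pool.Agent.H.MP_e2f694_an.HQ

/-!
# The isomorphism of the envelopes
-/

open UniformSpace Topology Filter
open scoped TensorProduct NNReal

namespace Pool.Agent.H.MP_e2f694_an

noncomputable section

set_option linter.unusedSectionVars false

lemma Env.hom_ext {A B : Type*} [Ring A] [Algebra ℂ A] [TopologicalSpace B] [T2Space B]
    {f g : Env A → B} (hf : Continuous f) (hg : Continuous g)
    (h : ∀ a, f (toEnv A a) = g (toEnv A a)) : f = g :=
  (denseRange_toEnv A).equalizer hf hg (funext h)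

instance {B : Type*} [Ring B] [Algebra ℂ B] [UniformSpace B] [IsUniformAddGroup B]
    [IsTopologicalRing B] [UniformContinuousConstSMul ℂ B] [ContinuousSMul ℂ B] :
    ContinuousSMul ℂ (Completion B) where
  continuous_smul := by
    have h1 : Continuous (algebraMap ℂ (Completion B)) :=
      (Completion.continuous_coe B).comp (continuous_algebraMap ℂ B)
    have h2 : (fun z : ℂ × Completion B => z.1 • z.2) =
        fun z => algebraMap ℂ (Completion B) z.1 * z.2 := by
      funext z
      exact Algebra.smul_def z.1 z.2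
    rw [h2]
    fun_prop

section CT

variable {E F : Type*} [Ring E] [Algebra ℂ E] [UniformSpace E] [IsUniformAddGroup E] [LMC E]
  [Ring F] [Algebra ℂ F] [UniformSpace F] [IsUniformAddGroup F] [LMC F]

lemma ctmul_mul_ctmul (a a' : E) (b b' : F) :
    ctmul a b * ctmul a' b' = ctmul (a * a') (b * b') := by
  rw [ctmul, ctmul, ← Completion.coe_mul, ptmul_mul_ptmul]
  rfl

lemma ctmul_one_one : ctmul (1 : E) (1 : F) = 1 := rfl

lemma CTensor.induction {P : CTensor E F → Prop} (z : CTensor E F)
    (hc : IsClosed {z | P z}) (ht : ∀ x y, P (ctmul x y)) (h0 : P 0)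
    (ha : ∀ u v, P u → P v → P (u + v)) : P z := by
  induction z using Completion.induction_on with
  | hp => exact hc
  | ih a =>
    induction a using ProjTensor.induction with
    | h0 => rw [Completion.coe_zero]; exact h0
    | ht x y => exact ht x y
    | ha u v hu hv => rw [Completion.coe_add]; exact ha _ _ hu hv

variable (F) in
/-- The map `x ↦ x ⊗ 1`. -/
def inl : E →A[ℂ] CTensor E F where
  toFun x := ctmul x 1
  map_one' := rfl
  map_mul' x y := by rw [ctmul_mul_ctmul, one_mul]
  map_zero' := by
    rw [ctmul, ptmul, TensorProduct.zero_tmul]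
    exact Completion.coe_zero
  map_add' x y := by
    rw [ctmul, ctmul, ctmul, ← Completion.coe_add]
    congr 1
    exact TensorProduct.add_tmul x y 1
  commutes' c := rfl
  cont := by
    refine (Completion.continuous_coe _).comp ?_
    let l : E →ₗ[ℂ] ProjTensor E F := (TensorProduct.mk ℂ E F).flip 1
    change Continuous l
    refine (proj_withSeminorms E F).continuous_of_continuous_comp l ?_
    rintro ⟨r, p, q, hp, hq, h⟩
    refine Seminorm.continuous_of_le (q := (q 1).toNNReal • p) ?_ ?_
    · exact hp.const_smul _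
    · intro x
      refine (h x 1).trans ?_
      simp [NNReal.smul_def, mul_comm]

variable (E) in
/-- The map `y ↦ 1 ⊗ y`. -/
def inr : F →A[ℂ] CTensor E F where
  toFun y := ctmul 1 y
  map_one' := rfl
  map_mul' x y := by rw [ctmul_mul_ctmul, one_mul]
  map_zero' := by
    rw [ctmul, ptmul, TensorProduct.tmul_zero]
    exact Completion.coe_zero
  map_add' x y := by
    rw [ctmul, ctmul, ctmul, ← Completion.coe_add]
    congr 1
    exact TensorProduct.tmul_add 1 x y
  commutes' c := by
    rw [Algebra.algebraMap_eq_smul_one]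
    change ((ptmul (1 : E) (c • (1 : F)) : ProjTensor E F) : CTensor E F) = _
    rw [ptmul, TensorProduct.tmul_smul, TensorProduct.smul_tmul', ← Algebra.algebraMap_eq_smul_one]
    rfl
  cont := by
    refine (Completion.continuous_coe _).comp ?_
    let l : F →ₗ[ℂ] ProjTensor E F := TensorProduct.mk ℂ E F 1
    change Continuous l
    refine (proj_withSeminorms E F).continuous_of_continuous_comp l ?_
    rintro ⟨r, p, q, hp, hq, h⟩
    refine Seminorm.continuous_of_le (q := (p 1).toNNReal • q) ?_ ?_
    · exact hq.const_smul _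
    · intro x
      refine (h 1 x).trans ?_
      simp [NNReal.smul_def]

end CT

section cmapAlg

variable {E F E' F' : Type*} [Ring E] [Algebra ℂ E] [UniformSpace E] [IsUniformAddGroup E] [LMC E]
  [Ring F] [Algebra ℂ F] [UniformSpace F] [IsUniformAddGroup F] [LMC F]
  [Ring E'] [Algebra ℂ E'] [UniformSpace E'] [IsUniformAddGroup E'] [LMC E']
  [Ring F'] [Algebra ℂ F'] [UniformSpace F'] [IsUniformAddGroup F'] [LMC F']

lemma cmap_one (f : E →A[ℂ] E') (g : F →A[ℂ] F') :
    cmap f.toContinuousLinearMap g.toContinuousLinearMap 1 = 1 := by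
  rw [← ctmul_one_one, cmap_ctmul]
  simp [ctmul_one_one]

lemma cmap_mul (f : E →A[ℂ] E') (g : F →A[ℂ] F') (z w : CTensor E F) :
    cmap f.toContinuousLinearMap g.toContinuousLinearMap (z * w) =
      cmap f.toContinuousLinearMap g.toContinuousLinearMap z *
      cmap f.toContinuousLinearMap g.toContinuousLinearMap w := by
  have hc := (cmap f.toContinuousLinearMap g.toContinuousLinearMap).continuous
  induction z using CTensor.induction with
  | hc => exact isClosed_eq (by fun_prop) (by fun_prop)
  | h0 => rw [zero_mul, map_zero, zero_mul]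
  | ha u v hu hv => rw [add_mul, map_add, map_add, hu, hv, add_mul]
  | ht x y =>
    induction w using CTensor.induction with
    | hc => exact isClosed_eq (by fun_prop) (by fun_prop)
    | h0 => rw [mul_zero, map_zero, mul_zero]
    | ha u v hu hv => rw [mul_add, map_add, map_add, hu, hv, mul_add]
    | ht x' y' =>
      rw [ctmul_mul_ctmul, cmap_ctmul, cmap_ctmul, cmap_ctmul, ctmul_mul_ctmul]
      simp

/-- The homomorphism `f ⊗^ g`. -/
def cmapAlg (f : E →A[ℂ] E') (g : F →A[ℂ] F') : CTensor E F →A[ℂ] CTensor E' F' where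
  toAlgHom := AlgHom.ofLinearMap
    (cmap f.toContinuousLinearMap g.toContinuousLinearMap : CTensor E F →ₗ[ℂ] CTensor E' F')
    (cmap_one f g) (cmap_mul f g)
  cont := (cmap f.toContinuousLinearMap g.toContinuousLinearMap).continuous

lemma cmapAlg_ctmul (f : E →A[ℂ] E') (g : F →A[ℂ] F') (x : E) (y : F) :
    cmapAlg f g (ctmul x y) = ctmul (f x) (g y) :=
  cmap_ctmul _ _ _ _

end cmapAlg

section HopfFacts

variable {H : Type*} [Ring H] [HopfAlgebra ℂ H]

lemma toEnvTensor_tmul (a b : H) :
    toEnvTensor H (a ⊗ₜ b) = ctmul (toEnv H a) (toEnv H b) := rfl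

lemma comulHat_toEnv (a : H) :
    comulHat H (toEnv H a) = toEnvTensor H (Coalgebra.comul (R := ℂ) a) :=
  Env.lift_toEnv _ _

lemma counitHat_toEnv (a : H) :
    counitHat H (toEnv H a) = Coalgebra.counit (R := ℂ) a :=
  Env.lift_toEnv _ _

lemma antipodeHat_toEnv (a : H) :
    antipodeHat H (toEnv H a) = toEnv H (HopfAlgebra.antipode ℂ a) :=
  ContinuousLinearMap.completion_apply_coe _ _

lemma antipodeHat_mul (x y : Env H) :
    antipodeHat H (x * y) = antipodeHat H y * antipodeHat H x := by
  have hc := (antipodeHat H).continuous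
  have key : ∀ a b : H, antipodeHat H (toEnv H a * toEnv H b) =
      antipodeHat H (toEnv H b) * antipodeHat H (toEnv H a) := by
    intro a b
    calc antipodeHat H (toEnv H a * toEnv H b) = antipodeHat H (toEnv H (a * b)) := by
          rw [map_mul (toEnv H)]
      _ = toEnv H (HopfAlgebra.antipode ℂ b * HopfAlgebra.antipode ℂ a) := by
          rw [antipodeHat_toEnv, HopfAlgebra.antipode_mul_antidistrib]
      _ = _ := by rw [map_mul (toEnv H), antipodeHat_toEnv, antipodeHat_toEnv]
  induction x, y using Completion.induction_on₂ with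
  | hp => exact isClosed_eq (by fun_prop) (by fun_prop)
  | ih a b => exact key a b

end HopfFacts

namespace HQ

/-- Homomorphisms from `HQ q` are determined by the images of `x`, `y` and `t`. -/
lemma hom_ext3 {q : ℂ} {B : Type*} [Ring B] [Algebra ℂ B] {f g : HQ q →ₐ[ℂ] B}
    (hx : f (gen q .x) = g (gen q .x)) (hy : f (gen q .y) = g (gen q .y))
    (ht : f (gen q .t) = g (gen q .t)) : f = g := by
  apply hom_ext
  intro i
  cases i with
  | x => exact hx
  | y => exact hy
  | t => exact ht
  | u =>
    have h1 : f (gen q .u) * f (gen q .t) = 1 := by rw [← map_mul, ut, map_one]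
    have h2 : f (gen q .t) * g (gen q .u) = 1 := by rw [ht, ← map_mul, tu, map_one]
    exact left_inv_eq_right_inv h1 h2

variable {q q' c : ℂ}

/-- The generator `x` in the envelope. -/
def X (q : ℂ) : Env (HQ q) := toEnv _ (gen q .x)
/-- The generator `y` in the envelope. -/
def Y (q : ℂ) : Env (HQ q) := toEnv _ (gen q .y)
/-- The generator `t` in the envelope. -/
def T (q : ℂ) : Env (HQ q) := toEnv _ (gen q .t)
/-- The generator `t⁻¹` in the envelope. -/
def U (q : ℂ) : Env (HQ q) := toEnv _ (gen q .u)

lemma TU : T q * U q = 1 := by rw [T, U, ← map_mul, tu, map_one]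
lemma UT : U q * T q = 1 := by rw [T, U, ← map_mul, ut, map_one]
lemma XY : X q * Y q = Y q * X q + Y q := by
  rw [X, Y, ← map_mul, xy, map_add, map_mul]
lemma TX : T q * X q = X q * T q := by
  rw [T, X, ← map_mul, tx, map_mul]
lemma TY : T q * Y q = q • (Y q * T q) := by
  rw [T, Y, ← map_mul, ty, map_smul, map_mul]

lemma ex_mul_Y : ex (c • X q) * Y q = Complex.exp c • (Y q * ex (c • X q)) := by
  have h : (c • X q) * Y q = Y q * (c • X q + algebraMap ℂ _ c) := by
    rw [smul_mul_assoc, XY, mul_add, Algebra.algebraMap_eq_smul_one, mul_smul_comm, mul_smul_comm,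
      mul_one, smul_add]
  rw [ex_mul_of_intertwine h, ← ex_mul_ex (Algebra.commutes c (c • X q)).symm, ex_algebraMap,
    ← mul_assoc, ← Algebra.commutes, ← Algebra.smul_def]

lemma commute_ex_X : Commute (ex (c • X q)) (X q) := by
  have h : (c • X q) * X q = X q * (c • X q) := by
    rw [smul_mul_assoc, mul_smul_comm]
  exact ex_mul_of_intertwine h

/-- The elements `x, y, exp(c x) t, t⁻¹ exp(-c x)` of the envelope of `HQ q` satisfy the relations
of `HQ (q * exp c)`. -/
def quad (h : q' = q * Complex.exp c) : Quad q' (Env (HQ q)) where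
  f g := match g with
    | .x => X q
    | .y => Y q
    | .t => ex (c • X q) * T q
    | .u => U q * ex (-(c • X q))
  tu := by
    rw [mul_assoc, ← mul_assoc (T q), TU, one_mul, ex_mul_neg]
  ut := by
    rw [mul_assoc, ← mul_assoc (ex (-(c • X q))), ex_neg_mul, one_mul, UT]
  xy := XY
  tx := by
    rw [mul_assoc, TX, ← mul_assoc, commute_ex_X.eq, mul_assoc]
  ty := by
    rw [mul_assoc, TY, mul_smul_comm, ← mul_assoc, ex_mul_Y, smul_mul_assoc, smul_smul, h, mul_assoc]

/-- The homomorphism `HQ q' → Env (HQ q)`, `t ↦ exp(c x) t`. -/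
def phi0 (h : q' = q * Complex.exp c) : HQ q' →ₐ[ℂ] Env (HQ q) := lift (quad h)

/-- The continuous homomorphism `Env (HQ q') → Env (HQ q)`, `t ↦ exp(c x) t`. -/
def phi (h : q' = q * Complex.exp c) : Env (HQ q') →A[ℂ] Env (HQ q) := Env.lift (phi0 h)

lemma phi_toEnv (h : q' = q * Complex.exp c) (a : HQ q') : phi h (toEnv _ a) = phi0 h a :=
  Env.lift_toEnv _ _

lemma phi_X (h : q' = q * Complex.exp c) : phi h (X q') = X q :=
  (phi_toEnv h _).trans (lift_gen _ _)
lemma phi_Y (h : q' = q * Complex.exp c) : phi h (Y q') = Y q :=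
  (phi_toEnv h _).trans (lift_gen _ _)
lemma phi_T (h : q' = q * Complex.exp c) : phi h (T q') = ex (c • X q) * T q :=
  (phi_toEnv h _).trans (lift_gen _ _)
lemma phi_U (h : q' = q * Complex.exp c) : phi h (U q') = U q * ex (-(c • X q)) :=
  (phi_toEnv h _).trans (lift_gen _ _)

lemma phi_phi {c' : ℂ} (h : q' = q * Complex.exp c) (h' : q = q' * Complex.exp c')
    (hc : c' = -c) (z : Env (HQ q')) :
    phi h' (phi h z) = z := by
  have key : (phi h').toAlgHom.comp (phi0 h) = toEnv (HQ q') := by
    apply hom_ext3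
    · change phi h' (phi0 h (gen q' .x)) = X q'
      rw [← phi_toEnv]
      change phi h' (phi h (X q')) = X q'
      rw [phi_X, phi_X]
    · change phi h' (phi0 h (gen q' .y)) = Y q'
      rw [← phi_toEnv]
      change phi h' (phi h (Y q')) = Y q'
      rw [phi_Y, phi_Y]
    · change phi h' (phi0 h (gen q' .t)) = T q'
      rw [← phi_toEnv]
      change phi h' (phi h (T q')) = T q'
      rw [phi_T, map_mul, phi_T, ex_map (phi h') (phi h').continuous, map_smul, phi_X,
        ← mul_assoc, hc, neg_smul, ex_mul_neg, one_mul]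
  have := Env.hom_ext (f := fun z => phi h' (phi h z)) (g := id)
    ((phi h').continuous.comp (phi h).continuous) continuous_id (fun a => by
      change phi h' (phi h (toEnv _ a)) = toEnv _ a
      rw [phi_toEnv]
      exact DFunLike.congr_fun key a)
  exact congrFun this z

/-- The isomorphism of algebras `Env (HQ q') ≃ Env (HQ q)`, `t ↦ exp(c x) t`. -/
def phiAlgEquiv {c' : ℂ} (h : q' = q * Complex.exp c) (h' : q = q' * Complex.exp c')
    (hc : c' = -c) : Env (HQ q') ≃ₐ[ℂ] Env (HQ q) where
  toFun := phi h
  invFun := phi h'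
  left_inv z := phi_phi h h' hc z
  right_inv z := phi_phi h' h (by rw [hc, neg_neg]) z
  map_mul' := map_mul (phi h)
  map_add' := map_add (phi h)
  commutes' := AlgHomClass.commutes (phi h)

/-- The isomorphism of topological algebras `Env (HQ q') ≃ Env (HQ q)`, `t ↦ exp(c x) t`. -/
def phiEquiv {c' : ℂ} (h : q' = q * Complex.exp c) (h' : q = q' * Complex.exp c')
    (hc : c' = -c) : Env (HQ q') ≃A[ℂ] Env (HQ q) where
  toAlgEquiv := phiAlgEquiv h h' hc
  continuous_toFun := (phi h).continuous
  continuous_invFun := (phi h').continuous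

/-! ### Compatibility with the Hopf structure -/

lemma comulHat_X : comulHat (HQ q) (X q) = ctmul (X q) 1 + ctmul 1 (X q) := by
  rw [X, comulHat_toEnv, comul_gen, comulGen, map_add, toEnvTensor_tmul, toEnvTensor_tmul, map_one]

lemma comulHat_Y : comulHat (HQ q) (Y q) = ctmul (Y q) 1 + ctmul 1 (Y q) := by
  rw [Y, comulHat_toEnv, comul_gen, comulGen, map_add, toEnvTensor_tmul, toEnvTensor_tmul, map_one]

lemma comulHat_T : comulHat (HQ q) (T q) = ctmul (T q) (T q) := by
  rw [T, comulHat_toEnv, comul_gen, comulGen, toEnvTensor_tmul]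

lemma comulHat_ex : comulHat (HQ q) (ex (c • X q)) = ctmul (ex (c • X q)) (ex (c • X q)) := by
  rw [ex_map (comulHat (HQ q)) (comulHat (HQ q)).continuous, map_smul, comulHat_X, smul_add]
  have h1 : c • ctmul (X q) (1 : Env (HQ q)) = inl (Env (HQ q)) (c • X q) := by
    rw [map_smul]; rfl
  have h2 : c • ctmul (1 : Env (HQ q)) (X q) = inr (Env (HQ q)) (c • X q) := by
    rw [map_smul]; rfl
  have hcomm : Commute (inl (Env (HQ q)) (c • X q)) (inr (Env (HQ q)) (c • X q)) := by
    change ctmul _ _ * ctmul _ _ = ctmul _ _ * ctmul _ _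
    rw [ctmul_mul_ctmul, ctmul_mul_ctmul, one_mul, mul_one]
  rw [h1, h2, ← ex_mul_ex hcomm, ← ex_map (inl (Env (HQ q))) (inl (Env (HQ q))).continuous,
    ← ex_map (inr (Env (HQ q))) (inr (Env (HQ q))).continuous]
  change ctmul _ _ * ctmul _ _ = _
  rw [ctmul_mul_ctmul, one_mul, mul_one]

lemma comulHat_phi (h : q' = q * Complex.exp c) (z : Env (HQ q')) :
    comulHat (HQ q) (phi h z) = cmapAlg (phi h) (phi h) (comulHat (HQ q') z) := by
  have key : ((comulHat (HQ q)).toAlgHom.comp (phi h).toAlgHom).comp (toEnv (HQ q')) =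
      ((cmapAlg (phi h) (phi h)).toAlgHom.comp (comulHat (HQ q')).toAlgHom).comp
        (toEnv (HQ q')) := by
    apply hom_ext3
    · change comulHat (HQ q) (phi h (X q')) = cmapAlg (phi h) (phi h) (comulHat (HQ q') (X q'))
      rw [phi_X, comulHat_X, comulHat_X, map_add, cmapAlg_ctmul, cmapAlg_ctmul, phi_X, map_one]
    · change comulHat (HQ q) (phi h (Y q')) = cmapAlg (phi h) (phi h) (comulHat (HQ q') (Y q'))
      rw [phi_Y, comulHat_Y, comulHat_Y, map_add, cmapAlg_ctmul, cmapAlg_ctmul, phi_Y, map_one]
    · change comulHat (HQ q) (phi h (T q')) = cmapAlg (phi h) (phi h) (comulHat (HQ q') (T q'))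
      rw [phi_T, map_mul, comulHat_ex, comulHat_T, comulHat_T, cmapAlg_ctmul, phi_T,
        ctmul_mul_ctmul]
  have := Env.hom_ext (f := fun z => comulHat (HQ q) (phi h z))
    (g := fun z => cmapAlg (phi h) (phi h) (comulHat (HQ q') z))
    ((comulHat (HQ q)).continuous.comp (phi h).continuous)
    ((cmapAlg (phi h) (phi h)).continuous.comp (comulHat (HQ q')).continuous)
    (fun a => DFunLike.congr_fun key a)
  exact congrFun this z

lemma counitHat_phi (h : q' = q * Complex.exp c) (z : Env (HQ q')) :
    counitHat (HQ q) (phi h z) = counitHat (HQ q') z := by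
  have key : ((counitHat (HQ q)).toAlgHom.comp (phi h).toAlgHom).comp (toEnv (HQ q')) =
      (counitHat (HQ q')).toAlgHom.comp (toEnv (HQ q')) := by
    have hX : ∀ p, counitHat (HQ p) (X p) = 0 := fun p => by
      rw [X, counitHat_toEnv, counit_gen, counitGen]
    have hY : ∀ p, counitHat (HQ p) (Y p) = 0 := fun p => by
      rw [Y, counitHat_toEnv, counit_gen, counitGen]
    have hT : ∀ p, counitHat (HQ p) (T p) = 1 := fun p => by
      rw [T, counitHat_toEnv, counit_gen, counitGen]
    apply hom_ext3
    · change counitHat (HQ q) (phi h (X q')) = counitHat (HQ q') (X q')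
      rw [phi_X, hX, hX]
    · change counitHat (HQ q) (phi h (Y q')) = counitHat (HQ q') (Y q')
      rw [phi_Y, hY, hY]
    · change counitHat (HQ q) (phi h (T q')) = counitHat (HQ q') (T q')
      rw [phi_T, map_mul, hT, hT, ex_map (counitHat (HQ q)) (counitHat (HQ q)).continuous, map_smul,
        hX, smul_zero, ex_zero, one_mul]
  have := Env.hom_ext (f := fun z => counitHat (HQ q) (phi h z))
    (g := counitHat (HQ q'))
    ((counitHat (HQ q)).continuous.comp (phi h).continuous)
    (counitHat (HQ q')).continuous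
    (fun a => DFunLike.congr_fun key a)
  exact congrFun this z

lemma antipode_gen (i : Gen) :
    HopfAlgebra.antipode ℂ (gen q i) = MulOpposite.unop (antipodeGen q i) := by
  change anti q (gen q i) = _
  simp [anti, antipodeHom]

lemma antipodeHat_X : antipodeHat (HQ q) (X q) = -X q := by
  rw [X, antipodeHat_toEnv, antipode_gen]
  exact map_neg _ _

lemma antipodeHat_Y : antipodeHat (HQ q) (Y q) = -Y q := by
  rw [Y, antipodeHat_toEnv, antipode_gen]
  exact map_neg _ _

lemma antipodeHat_T : antipodeHat (HQ q) (T q) = U q := by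
  rw [T, antipodeHat_toEnv, antipode_gen]
  rfl

lemma antipodeHat_U : antipodeHat (HQ q) (U q) = T q := by
  rw [U, antipodeHat_toEnv, antipode_gen]
  rfl

lemma antipodeHat_one {H : Type*} [Ring H] [HopfAlgebra ℂ H] : antipodeHat H 1 = 1 := by
  rw [← map_one (toEnv H), antipodeHat_toEnv, HopfAlgebra.antipode_one]

lemma antipodeHat_pow {H : Type*} [Ring H] [HopfAlgebra ℂ H] (x : Env H) (n : ℕ) :
    antipodeHat H (x ^ n) = antipodeHat H x ^ n := by
  induction n with
  | zero => simp [antipodeHat_one]
  | succ n ih => rw [pow_succ, antipodeHat_mul, ih, pow_succ']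

lemma antipodeHat_ex {H : Type*} [Ring H] [HopfAlgebra ℂ H] (x : Env H) :
    antipodeHat H (ex x) = ex (antipodeHat H x) := by
  rw [ex, ex, (summable_exTerm x).map_tsum (antipodeHat H) (antipodeHat H).continuous]
  refine tsum_congr fun n => ?_
  rw [exTerm, exTerm, map_smul, antipodeHat_pow]

lemma antipodeHat_phi (h : q' = q * Complex.exp c) (z : Env (HQ q')) :
    antipodeHat (HQ q) (phi h z) = phi h (antipodeHat (HQ q') z) := by
  have key : ∀ a : HQ q', antipodeHat (HQ q) (phi h (toEnv _ a)) =
      phi h (antipodeHat (HQ q') (toEnv _ a)) := by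
    intro a
    induction a using HQ.induction with
    | h1 r =>
      rw [Algebra.algebraMap_eq_smul_one, map_smul, map_smul, map_smul, map_smul, map_smul, map_one,
        map_one, antipodeHat_one, antipodeHat_one, map_one]
    | hg i =>
      cases i with
      | x =>
        change antipodeHat (HQ q) (phi h (X q')) = phi h (antipodeHat (HQ q') (X q'))
        rw [phi_X, antipodeHat_X, antipodeHat_X, map_neg, phi_X]
      | y =>
        change antipodeHat (HQ q) (phi h (Y q')) = phi h (antipodeHat (HQ q') (Y q'))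
        rw [phi_Y, antipodeHat_Y, antipodeHat_Y, map_neg, phi_Y]
      | t =>
        change antipodeHat (HQ q) (phi h (T q')) = phi h (antipodeHat (HQ q') (T q'))
        rw [phi_T, antipodeHat_T, phi_U, antipodeHat_mul, antipodeHat_T, antipodeHat_ex, map_smul,
          antipodeHat_X, smul_neg]
      | u =>
        change antipodeHat (HQ q) (phi h (U q')) = phi h (antipodeHat (HQ q') (U q'))
        rw [phi_U, antipodeHat_U, phi_T, antipodeHat_mul, antipodeHat_U, antipodeHat_ex, map_neg,
          map_smul, antipodeHat_X, smul_neg, neg_neg]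
    | ha a b ha hb => simp only [map_add, ha, hb]
    | hm a b ha hb =>
      rw [map_mul (toEnv _), map_mul (phi h), antipodeHat_mul, ha, hb, antipodeHat_mul,
        map_mul (phi h)]
  have := Env.hom_ext (f := fun z => antipodeHat (HQ q) (phi h z))
    (g := fun z => phi h (antipodeHat (HQ q') z))
    ((antipodeHat (HQ q)).continuous.comp (phi h).continuous)
    ((phi h).continuous.comp (antipodeHat (HQ q')).continuous)
    key
  exact congrFun this z

/-- The isomorphism of Hopf `⊗^`-algebras `Env (HQ q') ≃ Env (HQ q)`. -/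
def envIso {c' : ℂ} (h : q' = q * Complex.exp c) (h' : q = q' * Complex.exp c')
    (hc : c' = -c) : EnvIso (HQ q') (HQ q) where
  equiv := phiEquiv h h' hc
  comul_comm z := comulHat_phi h z
  counit_comm z := counitHat_phi h z
  antipode_comm z := antipodeHat_phi h z

end HQ

end

end Pool.Agent.H.MP_e2f694_an
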