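import Mathlib

/-!
# Arens-Michael envelopes of Hopf algebras: the definitions

All algebras and vector spaces are over `ℂ`. Completions are described by the properties that
determine them up to a unique isomorphism: complete, Hausdorff, dense image, and the topology
induced on the original space.
-/

open Topology
open scoped TensorProduct

namespace Pool.Agent.H.MP_e2f694_an

/-- A seminorm on an algebra is submultiplicative if `p (ab) ≤ p a * p b`. -/
def Submul {A : Type*} [Ring A] [Algebra ℂ A] (p : Seminorm ℂ A) : Prop :=
  ∀ a b : A, p (a * b) ≤ p a * p b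

/-- `ι : A → B` is the Arens-Michael envelope of the algebra `A`, that is the completion of `A`
with respect to the family of all submultiplicative seminorms on `A`: `B` is a complete Hausdorff
topological algebra, `ι` has dense image, and a set is a neighbourhood of zero for the topology
that `ι` induces on `A` iff it contains the open unit ball of a submultiplicative seminorm. -/
structure IsEnvelope {A B : Type} [Ring A] [Algebra ℂ A] [Ring B] [Algebra ℂ B] [UniformSpace B]
    (ι : A →ₐ[ℂ] B) : Prop where
  isUniformAddGroup : IsUniformAddGroup B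
  isTopologicalRing : IsTopologicalRing B
  continuousSMul : ContinuousSMul ℂ B
  completeSpace : CompleteSpace B
  t2Space : T2Space B
  denseRange : DenseRange ι
  mem_comap_nhds_iff : ∀ U : Set A,
    U ∈ (𝓝 (0 : B)).comap ι ↔ ∃ p : Seminorm ℂ A, Submul p ∧ {a | p a < 1} ⊆ U

/-- `τ : E ⊗ F → T` is the completed projective tensor product of the topological vector spaces
`E` and `F`: `T` is a complete Hausdorff topological vector space, `τ` has dense image, and a set
is a neighbourhood of zero for the topology that `τ` induces on `E ⊗ F` iff it contains the open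
unit ball of a seminorm `r` with `r (x ⊗ y) ≤ p x * q y` for some continuous seminorms `p` on `E`
and `q` on `F`. -/
structure IsProjTensor {E F T : Type} [AddCommGroup E] [Module ℂ E] [TopologicalSpace E]
    [AddCommGroup F] [Module ℂ F] [TopologicalSpace F] [AddCommGroup T] [Module ℂ T]
    [UniformSpace T] (τ : E ⊗[ℂ] F →ₗ[ℂ] T) : Prop where
  isUniformAddGroup : IsUniformAddGroup T
  continuousSMul : ContinuousSMul ℂ T
  completeSpace : CompleteSpace T
  t2Space : T2Space T
  denseRange : DenseRange τ
  mem_comap_nhds_iff : ∀ U : Set (E ⊗[ℂ] F),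
    U ∈ (𝓝 (0 : T)).comap τ ↔ ∃ r : Seminorm ℂ (E ⊗[ℂ] F),
      (∃ (p : Seminorm ℂ E) (q : Seminorm ℂ F), Continuous p ∧ Continuous q ∧
        ∀ x y, r (x ⊗ₜ[ℂ] y) ≤ p x * q y) ∧ {u | r u < 1} ⊆ U

/-- The Arens-Michael envelope of a Hopf algebra `H`, with its structure of a Hopf
`⊗^`-algebra: the envelope `ι : H → B`, the completed projective tensor product
`τ : B ⊗ B → T`, and the continuous linear maps `B → T`, `B → ℂ`, `B → B` that extend the
comultiplication, the counit and the antipode of `H`. -/
structure HopfEnvelope (H : Type) [Ring H] [HopfAlgebra ℂ H] where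
  /-- the envelope of `H` -/
  B : Type
  [ring : Ring B]
  [algebra : Algebra ℂ B]
  [uniformSpace : UniformSpace B]
  /-- the canonical homomorphism -/
  ι : H →ₐ[ℂ] B
  isEnvelope : IsEnvelope ι
  /-- the completed projective tensor product of `B` with itself -/
  T : Type
  [addCommGroupT : AddCommGroup T]
  [moduleT : Module ℂ T]
  [uniformSpaceT : UniformSpace T]
  /-- the canonical map -/
  τ : B ⊗[ℂ] B →ₗ[ℂ] T
  isProjTensor : IsProjTensor τ
  /-- the comultiplication of the envelope -/
  comul : B →L[ℂ] T
  comul_ι : ∀ h, comul (ι h) =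
    τ (TensorProduct.map ι.toLinearMap ι.toLinearMap (Coalgebra.comul (R := ℂ) h))
  /-- the counit of the envelope -/
  counit : B →L[ℂ] ℂ
  counit_ι : ∀ h, counit (ι h) = Coalgebra.counit (R := ℂ) h
  /-- the antipode of the envelope -/
  antipode : B →L[ℂ] B
  antipode_ι : ∀ h, antipode (ι h) = ι (HopfAlgebra.antipode ℂ h)

attribute [instance] HopfEnvelope.ring HopfEnvelope.algebra HopfEnvelope.uniformSpace
  HopfEnvelope.addCommGroupT HopfEnvelope.moduleT HopfEnvelope.uniformSpaceT

namespace HopfEnvelope

variable {H : Type} [Ring H] [HopfAlgebra ℂ H] (X : HopfEnvelope H)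

/-- The element `x ⊗ y` of the completed tensor product `B ⊗^ B`. -/
noncomputable def tmul (x y : X.B) : X.T := X.τ (x ⊗ₜ[ℂ] y)

/-- The value of the comultiplication of the envelope. -/
noncomputable def Δ (x : X.B) : X.T := X.comul x

/-- The value of the counit of the envelope. -/
noncomputable def ε (x : X.B) : ℂ := X.counit x

/-- The value of the antipode of the envelope. -/
noncomputable def S (x : X.B) : X.B := X.antipode x

end HopfEnvelope

/-- An isomorphism of Hopf `⊗^`-algebras between the Arens-Michael envelopes of two Hopf algebras: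
an isomorphism `f` of topological algebras that commutes with comultiplication (where `f2` is
`f ⊗^ f`, the continuous linear map with `f2 (x ⊗ y) = f x ⊗ f y`), counit and antipode. -/
structure HopfEnvelope.Iso {H₁ H₂ : Type} [Ring H₁] [HopfAlgebra ℂ H₁] [Ring H₂]
    [HopfAlgebra ℂ H₂] (X : HopfEnvelope H₁) (Y : HopfEnvelope H₂) where
  /-- the isomorphism -/
  f : X.B → Y.B
  isTopAlgIso : ∃ e : X.B ≃A[ℂ] Y.B, ∀ x, e x = f x
  /-- the map `f ⊗^ f` -/
  f2 : X.T → Y.T
  isLinear_f2 : IsLinearMap ℂ f2
  continuous_f2 : Continuous f2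
  f2_tmul : ∀ x y, f2 (X.tmul x y) = Y.tmul (f x) (f y)
  comul_f : ∀ x, Y.Δ (f x) = f2 (X.Δ x)
  counit_f : ∀ x, Y.ε (f x) = X.ε x
  antipode_f : ∀ x, Y.S (f x) = f (X.S x)

end Pool.Agent.H.MP_e2f694_an
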